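import Pool.Agent.H41.FT.Claims

/-! Branch and bound data, generated. -/

set_option maxRecDepth 100000

namespace H41FT

open Tr

theorem MA_0 : Hd QMA 79228162514264351667292785869 14073748835533 79228162514264351667292785869
    14073748835533 79228162514264407962288128000 70368744177664 :=
  okMA (s2 (s1 (s2 lf lf) (s2 lf lf)) (s1 lf (s2 lf lf)))
    ⟨79228162514264351667292785869, 14073748835533, 79228162514264351667292785869,
    14073748835533, 79228162514264407962288128000, 70368744177664⟩ (by decide +kernel)

theorem MA_1 : Hd QMA 79228162514264351667292785869 14073748835533 79228162514264351667292785869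
    14073748835533 79228162514264548699776483328 70368744177664 :=
  okMA (s2 (s1 lf (s2 lf lf)) (s1 lf lf))
    ⟨79228162514264351667292785869, 14073748835533, 79228162514264351667292785869,
    14073748835533, 79228162514264548699776483328, 70368744177664⟩ (by decide +kernel)

theorem MB_0 : Hd QMB 79228162514264351667292785869 14073748835533 79228162514264604994771825459
    14073748835533 79228162514264355185729994752 17592186044416 :=
  okMB (s1 (s2 (s0 lf lf) (s0 lf lf)) (s0 lf lf))
    ⟨79228162514264351667292785869, 14073748835533, 79228162514264604994771825459,
    14073748835533, 79228162514264355185729994752, 17592186044416⟩ (by decide +kernel)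

theorem MB_1 : Hd QMB 79228162514264351667292785869 14073748835533 79228162514264604994771825459
    14073748835533 79228162514264390370102083584 17592186044416 :=
  okMB (s1 (s2 (s0 lf lf) (s0 lf lf)) (s0 lf lf))
    ⟨79228162514264351667292785869, 14073748835533, 79228162514264604994771825459,
    14073748835533, 79228162514264390370102083584, 17592186044416⟩ (by decide +kernel)

theorem MB_2 : Hd QMB 79228162514264351667292785869 14073748835533 79228162514264604994771825459
    14073748835533 79228162514264425554474172416 17592186044416 :=
  okMB (s1 (s2 (s0 lf lf) (s0 lf lf)) (s0 lf lf))
    ⟨79228162514264351667292785869, 14073748835533, 79228162514264604994771825459,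
    14073748835533, 79228162514264425554474172416, 17592186044416⟩ (by decide +kernel)

theorem MB_3 : Hd QMB 79228162514264351667292785869 14073748835533 79228162514264604994771825459
    14073748835533 79228162514264460738846261248 17592186044416 :=
  okMB (s1 (s2 (s0 lf lf) (s0 lf lf)) (s0 lf lf))
    ⟨79228162514264351667292785869, 14073748835533, 79228162514264604994771825459,
    14073748835533, 79228162514264460738846261248, 17592186044416⟩ (by decide +kernel)

theorem MB_4 : Hd QMB 79228162514264351667292785869 14073748835533 79228162514264604994771825459
    14073748835533 79228162514264513515404394496 35184372088832 :=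
  okMB (s2 (s1 (s0 lf lf) (s0 lf lf)) (s1 (s0 lf lf) (s0 lf lf)))
    ⟨79228162514264351667292785869, 14073748835533, 79228162514264604994771825459,
    14073748835533, 79228162514264513515404394496, 35184372088832⟩ (by decide +kernel)

theorem MB_5 : Hd QMB 79228162514264351667292785869 14073748835533 79228162514264604994771825459
    14073748835533 79228162514264583884148572160 35184372088832 :=
  okMB (s2 (s1 (s1 lf lf) lf) (s1 (s1 lf lf) lf))
    ⟨79228162514264351667292785869, 14073748835533, 79228162514264604994771825459,
    14073748835533, 79228162514264583884148572160, 35184372088832⟩ (by decide +kernel)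

end H41FT
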