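import Pool.Agent.H41.FT.Claims

/-! Branch and bound data, generated. -/

set_option maxRecDepth 100000

namespace H41FT

open Tr

theorem MC_0 : Hd QMC 79228162514264351667292785869 14073748835533 79228162514264393888539292466
    28147497671066 79228162514264372777916039168 35184372088832 :=
  okMC (s2 (s1 (s2 (s1 (s0 lf lf) lf) (s1 lf lf)) (s2 (s1 (s0 lf lf) (s0 lf lf)) (s1 lf (s0 lf
    lf)))) (s1 (s1 (s2 lf lf) (s2 lf lf)) (s2 (s1 lf (s0 lf lf)) (s1 lf lf))))
    ⟨79228162514264351667292785869, 14073748835533, 79228162514264393888539292466,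
    28147497671066, 79228162514264372777916039168, 35184372088832⟩ (by decide +kernel)

theorem MC_1 : Hd QMC 79228162514264351667292785869 14073748835533 79228162514264450183534634598
    28147497671066 79228162514264372777916039168 35184372088832 :=
  okMC (s2 (s1 (s2 (s1 (s0 lf lf) (s0 lf lf)) (s1 (s0 lf lf) (s0 lf lf))) (s2 (s1 (s0 lf lf) (s0
    lf lf)) (s1 (s0 lf lf) (s0 lf lf)))) (s1 (s2 (s1 (s0 lf lf) (s0 lf lf)) (s1 (s0 lf lf) (s0
    lf lf))) (s2 (s1 (s0 lf lf) (s0 lf lf)) (s1 (s0 lf lf) (s0 lf lf)))))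
    ⟨79228162514264351667292785869, 14073748835533, 79228162514264450183534634598,
    28147497671066, 79228162514264372777916039168, 35184372088832⟩ (by decide +kernel)

theorem MC_2 : Hd QMC 79228162514264351667292785869 14073748835533 79228162514264393888539292466
    28147497671066 79228162514264443146660216832 35184372088832 :=
  okMC (s2 (s1 (s1 (s2 lf lf) (s2 lf lf)) (s2 (s1 lf lf) (s1 lf lf))) (s1 (s1 (s0 lf lf) lf) (s2
    (s1 lf lf) (s1 lf lf))))
    ⟨79228162514264351667292785869, 14073748835533, 79228162514264393888539292466,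
    28147497671066, 79228162514264443146660216832, 35184372088832⟩ (by decide +kernel)

theorem MC_3 : Hd QMC 79228162514264351667292785869 14073748835533 79228162514264450183534634598
    28147497671066 79228162514264443146660216832 35184372088832 :=
  okMC (s2 (s1 (s2 (s1 (s0 lf lf) (s0 lf lf)) (s1 (s0 lf lf) (s0 lf lf))) (s2 (s1 (s0 lf lf) (s0
    lf lf)) (s1 (s0 lf lf) (s0 lf lf)))) (s1 (s2 (s1 lf (s0 lf lf)) (s1 lf (s0 lf lf))) (s2 (s1
    (s0 lf lf) (s0 lf lf)) (s1 (s0 lf lf) (s0 lf lf)))))
    ⟨79228162514264351667292785869, 14073748835533, 79228162514264450183534634598,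
    28147497671066, 79228162514264443146660216832, 35184372088832⟩ (by decide +kernel)

theorem MC_4 : Hd QMC 79228162514264351667292785869 14073748835533 79228162514264506478529976730
    28147497671066 79228162514264372777916039168 35184372088832 :=
  okMC (s2 (s1 (s2 (s0 (s1 lf lf) (s1 lf lf)) (s0 (s1 lf lf) (s1 lf lf))) (s2 (s0 (s1 lf lf) (s1
    lf lf)) (s0 (s1 lf lf) (s1 lf lf)))) (s1 (s2 (s0 (s1 lf lf) (s1 lf lf)) (s0 (s1 lf lf) (s1
    lf lf))) (s2 (s0 (s1 lf lf) (s1 lf lf)) (s0 (s1 lf lf) (s1 lf lf)))))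
    ⟨79228162514264351667292785869, 14073748835533, 79228162514264506478529976730,
    28147497671066, 79228162514264372777916039168, 35184372088832⟩ (by decide +kernel)

theorem MC_5 : Hd QMC 79228162514264351667292785869 14073748835533 79228162514264562773525318862
    28147497671066 79228162514264372777916039168 35184372088832 :=
  okMC (s2 (s1 (s2 (s1 (s0 lf lf) (s0 lf lf)) (s1 (s0 lf lf) (s0 lf lf))) (s2 (s1 (s0 lf lf) (s0
    lf lf)) (s1 (s0 lf lf) (s0 lf lf)))) (s1 (s2 (s1 (s0 lf lf) (s0 lf lf)) (s1 (s0 lf lf) (s0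
    lf lf))) (s2 (s1 (s0 lf lf) (s0 lf lf)) (s1 (s0 lf lf) (s0 lf lf)))))
    ⟨79228162514264351667292785869, 14073748835533, 79228162514264562773525318862,
    28147497671066, 79228162514264372777916039168, 35184372088832⟩ (by decide +kernel)

end H41FT
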