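import Pool.Agent.H41.FT.Claims

/-! Branch and bound data, generated. -/

set_option maxRecDepth 100000

namespace H41FT

open Tr

theorem MC_6 : Hd QMC 79228162514264351667292785869 14073748835533 79228162514264506478529976730
    28147497671066 79228162514264443146660216832 35184372088832 :=
  okMC (s2 (s1 (s2 (s0 lf (s1 lf lf)) (s0 lf (s1 lf lf))) (s2 (s0 (s1 lf lf) (s1 lf lf)) (s0 lf
    (s1 lf lf)))) (s1 (s2 (s0 lf (s1 lf lf)) (s0 lf (s1 lf lf))) (s2 (s0 lf (s1 lf lf)) (s0 lf
    (s1 lf lf)))))
    ⟨79228162514264351667292785869, 14073748835533, 79228162514264506478529976730,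
    28147497671066, 79228162514264443146660216832, 35184372088832⟩ (by decide +kernel)

theorem MC_7 : Hd QMC 79228162514264351667292785869 14073748835533 79228162514264562773525318862
    28147497671066 79228162514264443146660216832 35184372088832 :=
  okMC (s2 (s1 (s2 (s1 (s0 lf lf) (s0 lf lf)) (s1 (s0 lf lf) (s0 lf lf))) (s2 (s1 (s0 lf lf) (s0
    lf lf)) (s1 (s0 lf lf) (s0 lf lf)))) (s1 (s2 (s1 (s0 lf lf) (s0 lf lf)) (s1 (s0 lf lf) (s0
    lf lf))) (s2 (s1 (s0 lf lf) (s0 lf lf)) (s1 (s0 lf lf) (s0 lf lf)))))
    ⟨79228162514264351667292785869, 14073748835533, 79228162514264562773525318862,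
    28147497671066, 79228162514264443146660216832, 35184372088832⟩ (by decide +kernel)

theorem MC_8 : Hd QMC 79228162514264351667292785869 14073748835533 79228162514264393888539292466
    28147497671066 79228162514264513515404394496 35184372088832 :=
  okMC (s2 (s1 (s1 lf lf) (s2 (s1 lf lf) (s1 lf lf))) (s1 (s1 lf lf) (s2 (s1 lf lf) (s1 lf
    lf))))
    ⟨79228162514264351667292785869, 14073748835533, 79228162514264393888539292466,
    28147497671066, 79228162514264513515404394496, 35184372088832⟩ (by decide +kernel)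

theorem MC_9 : Hd QMC 79228162514264351667292785869 14073748835533 79228162514264450183534634598
    28147497671066 79228162514264513515404394496 35184372088832 :=
  okMC (s2 (s1 (s2 (s1 lf (s0 lf lf)) (s1 lf (s0 lf lf))) (s2 (s1 (s0 lf lf) (s0 lf lf)) (s1 (s0
    lf lf) (s0 lf lf)))) (s1 (s1 (s2 lf lf) (s2 lf lf)) (s2 (s1 (s0 lf lf) (s0 lf lf)) (s1 (s0
    lf lf) (s0 lf lf)))))
    ⟨79228162514264351667292785869, 14073748835533, 79228162514264450183534634598,
    28147497671066, 79228162514264513515404394496, 35184372088832⟩ (by decide +kernel)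

theorem MC_10 : Hd QMC 79228162514264351667292785869 14073748835533
    79228162514264422036036963532 56294995342132 79228162514264583884148572160 35184372088832 :=
  okMC (s1 (s2 (s1 (s1 lf lf) (s1 lf lf)) (s1 (s1 lf lf) (s1 lf lf))) (s2 (s1 (s1 (s2 lf lf) (s2
    lf lf)) (s2 (s1 (s0 lf lf) (s0 lf lf)) (s1 (s0 lf lf) (s0 lf lf)))) (s1 (s1 (s2 lf lf) (s2
    lf lf)) (s2 (s1 lf (s0 lf lf)) (s1 lf (s0 lf lf))))))
    ⟨79228162514264351667292785869, 14073748835533, 79228162514264422036036963532,
    56294995342132, 79228162514264583884148572160, 35184372088832⟩ (by decide +kernel)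

theorem MC_11 : Hd QMC 79228162514264351667292785869 14073748835533
    79228162514264506478529976730 28147497671066 79228162514264513515404394496 35184372088832 :=
  okMC (s2 (s1 (s2 (s0 lf (s1 lf lf)) (s0 lf (s1 lf lf))) (s2 (s0 lf (s1 lf lf)) (s0 lf (s1 lf
    lf)))) (s1 (s2 (s0 lf lf) (s0 lf lf)) (s2 (s0 lf lf) (s0 lf lf))))
    ⟨79228162514264351667292785869, 14073748835533, 79228162514264506478529976730,
    28147497671066, 79228162514264513515404394496, 35184372088832⟩ (by decide +kernel)

end H41FT
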