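import Pool.Agent.H41.FT.Claims

/-! Branch and bound data, generated. -/

set_option maxRecDepth 100000

namespace H41FT

open Tr

theorem MC_12 : Hd QMC 79228162514264351667292785869 14073748835533
    79228162514264562773525318862 28147497671066 79228162514264513515404394496 35184372088832 :=
  okMC (s2 (s1 (s2 (s1 (s0 lf lf) (s0 lf lf)) (s1 (s0 lf lf) (s0 lf lf))) (s2 (s1 (s0 lf lf) (s0
    lf lf)) (s1 (s0 lf lf) (s0 lf lf)))) (s1 (s2 (s1 (s0 lf lf) (s0 lf lf)) (s1 (s0 lf lf) (s0
    lf lf))) (s1 (s2 (s0 lf lf) (s0 lf lf)) (s2 (s0 lf lf) (s0 lf lf)))))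
    ⟨79228162514264351667292785869, 14073748835533, 79228162514264562773525318862,
    28147497671066, 79228162514264513515404394496, 35184372088832⟩ (by decide +kernel)

theorem MC_13 : Hd QMC 79228162514264351667292785869 14073748835533
    79228162514264506478529976730 28147497671066 79228162514264583884148572160 35184372088832 :=
  okMC (s2 (s1 (s2 (s0 lf lf) (s0 lf lf)) (s2 (s0 lf lf) (s0 lf lf))) (s1 (s2 (s0 lf lf) (s0 lf
    lf)) (s2 (s0 lf lf) (s0 lf lf))))
    ⟨79228162514264351667292785869, 14073748835533, 79228162514264506478529976730,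
    28147497671066, 79228162514264583884148572160, 35184372088832⟩ (by decide +kernel)

theorem MC_14 : Hd QMC 79228162514264351667292785869 14073748835533
    79228162514264562773525318862 28147497671066 79228162514264583884148572160 35184372088832 :=
  okMC (s2 (s1 (s2 (s1 (s0 lf lf) (s0 lf lf)) (s1 (s0 lf lf) (s0 lf lf))) (s1 (s2 (s0 lf lf) (s0
    lf lf)) (s2 (s0 lf lf) (s0 lf lf)))) (s1 (s2 (s1 (s0 lf lf) (s0 lf lf)) (s1 (s0 lf lf) (s0
    lf lf))) (s1 (s2 (s0 lf lf) (s0 lf lf)) (s2 (s0 lf lf) (s0 lf lf)))))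
    ⟨79228162514264351667292785869, 14073748835533, 79228162514264562773525318862,
    28147497671066, 79228162514264583884148572160, 35184372088832⟩ (by decide +kernel)

theorem MD_0 : Hd QMD 79228162514264405851225802670 40110184181269 79228162514264351667292785869
    14073748835533 79228162514264407962288128000 70368744177664 :=
  okMD (s2 (s0 (s0 (s1 (s0 lf lf) (s2 (s0 lf lf) (s0 lf lf))) (s1 lf (s2 lf lf))) (s2 (s0 lf lf)
    (s0 lf lf))) (s0 (s0 (s1 lf (s2 lf lf)) (s1 lf (s2 lf lf))) (s0 (s1 lf lf) (s1 lf lf))))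
    ⟨79228162514264405851225802670, 40110184181269, 79228162514264351667292785869,
    14073748835533, 79228162514264407962288128000, 70368744177664⟩ (by decide +kernel)

theorem MD_1 : Hd QMD 79228162514264486071594165208 40110184181269 79228162514264351667292785869
    14073748835533 79228162514264407962288128000 70368744177664 :=
  okMD (s2 (s0 (s2 (s1 lf (s0 lf lf)) (s1 lf (s0 lf lf))) (s2 (s1 lf (s0 lf lf)) (s1 lf (s0 lf
    lf)))) (s0 (s2 (s1 lf lf) (s1 lf lf)) (s2 (s1 lf lf) (s1 lf lf))))
    ⟨79228162514264486071594165208, 40110184181269, 79228162514264351667292785869,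
    14073748835533, 79228162514264407962288128000, 70368744177664⟩ (by decide +kernel)

theorem MD_2 : Hd QMD 79228162514264445961409983939 80220368362538 79228162514264351667292785869
    14073748835533 79228162514264548699776483328 70368744177664 :=
  okMD (s0 (s2 (s0 (s0 (s1 lf (s0 lf lf)) (s1 lf lf)) (s0 (s1 lf lf) lf)) (s0 (s0 (s1 lf (s0 lf
    lf)) (s1 lf lf)) (s0 lf lf))) (s2 (s0 (s1 lf (s2 lf lf)) (s2 lf lf)) (s0 (s1 lf (s0 lf lf))
    (s1 lf (s2 lf lf)))))
    ⟨79228162514264445961409983939, 80220368362538, 79228162514264351667292785869,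
    14073748835533, 79228162514264548699776483328, 70368744177664⟩ (by decide +kernel)

end H41FT
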