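import Pool.Agent.H41.FT.Claims

/-! Branch and bound data, generated. -/

set_option maxRecDepth 100000

namespace H41FT

open Tr

theorem ME_0 : Hd QME 79228162514264385796133712035 20055092090635 79228162514264604994771825459
    14073748835533 79228162514264372777916039168 35184372088832 :=
  okME (s2 (s0 (s1 (s2 (s0 lf lf) (s0 lf lf)) (s0 lf lf)) (s1 (s2 (s0 lf lf) (s0 lf lf)) (s0 lf
    lf))) (s0 (s1 (s0 lf lf) (s0 lf lf)) (s1 (s0 lf lf) (s0 lf lf))))
    ⟨79228162514264385796133712035, 20055092090635, 79228162514264604994771825459,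
    14073748835533, 79228162514264372777916039168, 35184372088832⟩ (by decide +kernel)

theorem ME_1 : Hd QME 79228162514264425906317893305 20055092090635 79228162514264604994771825459
    14073748835533 79228162514264372777916039168 35184372088832 :=
  okME (s2 (s0 (s1 (s2 (s0 lf lf) (s0 lf lf)) (s0 lf lf)) (s1 (s2 (s0 lf lf) (s0 lf lf)) (s2 lf
    lf))) (s0 (s1 (s2 (s0 lf lf) (s0 lf lf)) (s0 lf lf)) (s1 (s2 (s0 lf lf) lf) (s0 lf lf))))
    ⟨79228162514264425906317893305, 20055092090635, 79228162514264604994771825459,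
    14073748835533, 79228162514264372777916039168, 35184372088832⟩ (by decide +kernel)

theorem ME_2 : Hd QME 79228162514264405851225802670 40110184181269 79228162514264604994771825459
    14073748835533 79228162514264443146660216832 35184372088832 :=
  okME (s0 (s2 (s0 (s1 (s0 lf lf) (s0 lf lf)) (s1 (s0 lf lf) (s0 lf lf))) (s0 (s1 (s0 lf lf) (s0
    lf lf)) (s1 (s0 lf lf) lf))) (s2 (s0 (s1 (s0 lf lf) lf) (s1 (s2 lf lf) lf)) (s0 (s1 (s0 lf
    lf) lf) (s1 (s0 lf lf) lf))))
    ⟨79228162514264405851225802670, 40110184181269, 79228162514264604994771825459,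
    14073748835533, 79228162514264443146660216832, 35184372088832⟩ (by decide +kernel)

theorem ME_3 : Hd QME 79228162514264466016502074573 20055092090635 79228162514264604994771825459
    14073748835533 79228162514264372777916039168 35184372088832 :=
  okME (s2 (s0 (s1 (s2 (s0 lf lf) (s0 lf lf)) (s2 lf lf)) (s1 (s2 (s0 lf lf) (s0 lf lf)) (s2 (s0
    lf lf) (s0 lf lf)))) (s0 (s1 (s2 (s0 lf lf) (s0 lf lf)) (s2 lf lf)) (s1 (s2 (s0 lf lf) (s0
    lf lf)) (s2 lf lf))))
    ⟨79228162514264466016502074573, 20055092090635, 79228162514264604994771825459,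
    14073748835533, 79228162514264372777916039168, 35184372088832⟩ (by decide +kernel)

theorem ME_4 : Hd QME 79228162514264506126686255843 20055092090635 79228162514264604994771825459
    14073748835533 79228162514264355185729994752 17592186044416 :=
  okME (s0 (s2 (s1 (s0 (s1 lf lf) (s1 lf lf)) (s0 lf lf)) (s1 (s0 lf (s1 lf lf)) (s0 lf lf)))
    (s2 (s1 (s0 (s1 (s2 lf lf) lf) (s1 (s2 (s1 lf lf) lf) (s2 lf lf))) (s0 (s1 lf lf) (s1 lf
    lf))) (s1 (s0 (s1 lf lf) (s1 (s2 lf lf) lf)) (s0 lf (s1 lf lf)))))
    ⟨79228162514264506126686255843, 20055092090635, 79228162514264604994771825459,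
    14073748835533, 79228162514264355185729994752, 17592186044416⟩ (by decide +kernel)

theorem ME_5 : Hd QME 79228162514264506126686255843 20055092090635 79228162514264604994771825459
    14073748835533 79228162514264390370102083584 17592186044416 :=
  okME (s0 (s2 (s1 (s0 lf lf) (s1 lf lf)) (s1 (s0 lf lf) lf)) (s2 (s1 (s0 (s1 lf lf) (s1 lf lf))
    (s0 lf lf)) (s1 (s0 lf (s1 lf lf)) (s1 lf lf))))
    ⟨79228162514264506126686255843, 20055092090635, 79228162514264604994771825459,
    14073748835533, 79228162514264390370102083584, 17592186044416⟩ (by decide +kernel)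

theorem ME_6 : Hd QME 79228162514264466016502074573 20055092090635 79228162514264604994771825459
    14073748835533 79228162514264443146660216832 35184372088832 :=
  okME (s2 (s0 (s1 (s2 lf lf) lf) (s1 (s2 (s0 lf lf) lf) (s2 lf lf))) (s0 (s1 (s2 lf lf) lf) (s1
    (s2 lf lf) lf)))
    ⟨79228162514264466016502074573, 20055092090635, 79228162514264604994771825459,
    14073748835533, 79228162514264443146660216832, 35184372088832⟩ (by decide +kernel)

end H41FT
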