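import Pool.Agent.H41.FT.Claims

/-! Branch and bound data, generated. -/

set_option maxRecDepth 100000

namespace H41FT

open Tr

theorem ME_7 : Hd QME 79228162514264506126686255843 20055092090635 79228162514264604994771825459
    14073748835533 79228162514264443146660216832 35184372088832 :=
  okME (s2 (s0 (s1 (s2 (s0 lf lf) (s1 lf lf)) (s2 lf lf)) (s2 (s1 (s0 lf lf) (s1 lf lf)) (s1 (s0
    lf lf) lf))) (s0 (s1 (s2 lf lf) (s2 lf lf)) (s1 (s2 (s0 lf lf) (s1 lf lf)) (s2 lf lf))))
    ⟨79228162514264506126686255843, 20055092090635, 79228162514264604994771825459,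
    14073748835533, 79228162514264443146660216832, 35184372088832⟩ (by decide +kernel)

theorem ME_8 : Hd QME 79228162514264405851225802670 40110184181269 79228162514264604994771825459
    14073748835533 79228162514264513515404394496 35184372088832 :=
  okME (s0 (s2 (s0 (s1 (s0 lf lf) (s0 lf lf)) (s1 (s0 lf lf) lf)) (s0 (s1 (s0 lf lf) (s0 lf lf))
    (s1 (s0 lf lf) lf))) (s2 (s0 (s1 (s0 lf lf) lf) (s1 (s0 lf lf) lf)) (s0 (s1 lf lf) (s1 lf
    lf))))
    ⟨79228162514264405851225802670, 40110184181269, 79228162514264604994771825459,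
    14073748835533, 79228162514264513515404394496, 35184372088832⟩ (by decide +kernel)

theorem ME_9 : Hd QME 79228162514264405851225802670 40110184181269 79228162514264604994771825459
    14073748835533 79228162514264583884148572160 35184372088832 :=
  okME (s0 (s2 (s0 (s1 (s0 lf lf) (s0 lf lf)) (s1 (s0 lf lf) lf)) (s0 (s1 (s0 lf lf) lf) (s1 lf
    lf))) (s2 (s0 (s1 lf lf) (s1 lf lf)) (s0 (s1 lf lf) (s1 lf lf))))
    ⟨79228162514264405851225802670, 40110184181269, 79228162514264604994771825459,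
    14073748835533, 79228162514264583884148572160, 35184372088832⟩ (by decide +kernel)

theorem ME_10 : Hd QME 79228162514264486071594165208 40110184181269
    79228162514264604994771825459 14073748835533 79228162514264513515404394496 35184372088832 :=
  okME (s0 (s2 (s0 (s1 lf lf) (s1 (s2 lf lf) lf)) (s0 (s1 lf lf) (s1 lf lf))) (s2 (s0 (s1 (s2 lf
    lf) lf) (s1 (s2 lf lf) lf)) (s0 (s1 lf lf) (s1 (s2 lf lf) lf))))
    ⟨79228162514264486071594165208, 40110184181269, 79228162514264604994771825459,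
    14073748835533, 79228162514264513515404394496, 35184372088832⟩ (by decide +kernel)

theorem ME_11 : Hd QME 79228162514264486071594165208 40110184181269
    79228162514264604994771825459 14073748835533 79228162514264583884148572160 35184372088832 :=
  okME (s0 (s2 (s0 (s1 lf lf) (s1 lf lf)) (s0 (s1 lf lf) (s1 lf lf))) (s2 (s0 (s1 lf lf) (s1 lf
    lf)) (s0 (s1 lf lf) (s1 lf lf))))
    ⟨79228162514264486071594165208, 40110184181269, 79228162514264604994771825459,
    14073748835533, 79228162514264583884148572160, 35184372088832⟩ (by decide +kernel)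

theorem MG_0 : Hd QMG 79228162514264405851225802670 40110184181269 79228162514264393888539292466
    28147497671066 79228162514264372777916039168 35184372088832 :=
  okMG (s0 (s2 (s1 (s0 (s2 (s0 lf lf) (s0 lf lf)) (s1 (s2 lf lf) (s2 lf lf))) (s0 (s2 (s0 lf lf)
    (s0 lf lf)) (s2 (s0 lf lf) (s0 lf lf)))) (s1 (s0 (s1 (s0 lf lf) (s0 lf lf)) (s1 (s0 lf lf)
    (s0 lf lf))) (s0 (s2 (s0 lf lf) (s0 lf lf)) (s2 (s0 lf lf) (s0 lf lf))))) (s2 (s1 (s0 (s1
    (s2 lf lf) (s2 lf lf)) (s1 (s2 lf lf) lf)) (s0 (s2 (s0 lf lf) lf) (s2 lf lf))) (s1 (s0 (s1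
    lf lf) (s1 lf lf)) (s0 (s2 lf lf) (s2 lf lf)))))
    ⟨79228162514264405851225802670, 40110184181269, 79228162514264393888539292466,
    28147497671066, 79228162514264372777916039168, 35184372088832⟩ (by decide +kernel)

theorem MG_1 : Hd QMG 79228162514264405851225802670 40110184181269 79228162514264450183534634598
    28147497671066 79228162514264372777916039168 35184372088832 :=
  okMG (s0 (s2 (s1 (s0 (s2 (s1 (s0 lf lf) (s0 lf lf)) (s1 (s0 lf lf) (s0 lf lf))) (s2 (s1 lf (s0
    lf lf)) (s0 lf lf))) (s0 (s2 (s1 (s0 lf lf) (s0 lf lf)) (s1 (s0 lf lf) (s0 lf lf))) (s2 (s1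
    (s0 lf lf) (s0 lf lf)) (s1 (s0 lf lf) (s0 lf lf))))) (s1 (s0 (s2 (s1 (s0 lf lf) (s0 lf lf))
    (s0 (s1 lf lf) lf)) (s2 (s0 lf lf) (s0 lf lf))) (s0 (s2 (s1 (s0 lf lf) (s0 lf lf)) (s1 (s0
    lf lf) (s0 lf lf))) (s2 (s1 (s0 lf lf) (s0 lf lf)) (s1 (s0 lf lf) (s0 lf lf)))))) (s2 (s1
    (s0 (s2 (s1 lf lf) (s0 lf lf)) (s2 (s1 lf lf) (s1 lf lf))) (s0 (s2 (s1 lf (s0 lf lf)) (s1 lf
    (s0 lf lf))) (s2 (s1 lf lf) (s1 lf lf)))) (s1 (s0 (s2 (s0 lf lf) (s0 lf lf)) (s2 lf lf)) (s0
    (s2 (s1 lf lf) (s0 lf lf)) (s2 (s1 lf lf) (s1 lf lf))))))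
    ⟨79228162514264405851225802670, 40110184181269, 79228162514264450183534634598,
    28147497671066, 79228162514264372777916039168, 35184372088832⟩ (by decide +kernel)

end H41FT
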