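import Pool.Agent.H41.FT.Claims

/-! Branch and bound data, generated. -/

set_option maxRecDepth 100000

namespace H41FT

open Tr

theorem MG_2 : Hd QMG 79228162514264405851225802670 40110184181269 79228162514264422036036963532
    56294995342132 79228162514264443146660216832 35184372088832 :=
  okMG (s1 (s0 (s2 (s1 (s0 (s0 (s1 lf lf) (s1 lf lf)) (s1 (s0 lf lf) lf)) (s0 (s0 (s2 lf lf) lf)
    (s0 lf lf))) (s1 (s0 (s0 (s1 lf lf) lf) (s1 lf lf)) (s0 (s0 (s1 lf lf) lf) (s0 lf lf)))) (s2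
    (s1 (s0 (s1 lf lf) (s1 lf lf)) (s0 (s0 lf lf) lf)) (s1 (s0 (s1 lf lf) (s1 lf lf)) (s0 (s0 lf
    lf) lf)))) (s0 (s2 (s1 (s0 (s2 (s0 (s1 lf lf) lf) (s0 lf lf)) (s2 (s0 lf lf) (s0 lf lf)))
    (s0 (s2 (s1 (s0 lf lf) (s0 lf lf)) (s1 (s0 lf lf) (s0 lf lf))) (s2 (s0 lf lf) (s0 lf lf))))
    (s1 (s0 (s2 (s0 lf lf) (s0 lf lf)) (s0 lf lf)) (s0 (s2 (s1 (s0 lf lf) (s0 lf lf)) (s1 (s0 lf
    lf) (s0 lf lf))) (s2 (s0 lf lf) (s0 lf lf))))) (s2 (s1 (s0 (s2 (s0 lf lf) (s0 lf lf)) (s2 lf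
    lf)) (s0 (s2 (s0 lf lf) (s0 lf lf)) (s2 (s0 lf lf) (s0 lf lf)))) (s1 (s0 (s0 lf lf) (s0 lf
    lf)) (s0 (s2 (s0 lf lf) (s0 lf lf)) (s2 lf lf))))))
    ⟨79228162514264405851225802670, 40110184181269, 79228162514264422036036963532,
    56294995342132, 79228162514264443146660216832, 35184372088832⟩ (by decide +kernel)

theorem MG_3 : Hd QMG 79228162514264486071594165208 40110184181269 79228162514264422036036963532
    56294995342132 79228162514264372777916039168 35184372088832 :=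
  okMG (s1 (s0 (s2 (s1 (s0 (s1 (s2 lf lf) lf) (s1 (s2 lf lf) lf)) (s0 (s2 lf lf) (s2 lf lf)))
    (s1 (s0 (s1 lf lf) (s1 lf lf)) (s0 (s2 lf lf) (s2 lf lf)))) (s2 (s1 (s0 (s2 (sk 0) lf) (sk
    0)) (s0 (s2 (s1 (sk 0) lf) lf) (sk 0))) (s1 (s0 (s1 lf lf) (sk 0)) (s0 (s2 lf lf) (sk 0)))))
    (s0 (s2 (s1 (s0 (s2 (s1 lf lf) lf) (s2 (s1 lf lf) lf)) (s0 (s2 (s1 lf lf) (s1 lf lf)) (s2
    (s1 lf lf) (s1 lf lf)))) (s1 (s0 (s2 lf lf) (s2 lf lf)) (s0 (s2 (s1 lf lf) (s1 lf lf)) (s2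
    (s1 lf lf) lf)))) (s2 (s1 (s0 (s2 (s1 lf lf) (s1 lf lf)) (sk 0)) (s0 (s2 (s1 lf lf) (s1 lf
    lf)) (sk 0))) (s1 (s0 (s2 lf lf) (sk 0)) (s0 (s2 (s1 lf lf) (s1 lf lf)) (s2 (s1 (sk 0) (sk
    0)) (s1 lf lf)))))))
    ⟨79228162514264486071594165208, 40110184181269, 79228162514264422036036963532,
    56294995342132, 79228162514264372777916039168, 35184372088832⟩ (by decide +kernel)

theorem MG_4 : Hd QMG 79228162514264486071594165208 40110184181269 79228162514264422036036963532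
    56294995342132 79228162514264443146660216832 35184372088832 :=
  okMG (s1 (s0 (s2 (s1 (s0 (s1 lf lf) (s1 lf lf)) (s0 lf lf)) (s1 (s0 lf lf) (s0 lf lf))) (s2
    (s1 (s0 (s1 lf lf) (sk 0)) (s0 lf (sk 0))) (s1 (s0 lf lf) (s0 lf lf)))) (s0 (s2 (s1 (s0 (s2
    lf lf) (s2 lf lf)) (s0 (s2 lf lf) (s2 lf lf))) (s1 (s0 lf lf) (s0 (s2 lf lf) (s2 lf lf))))
    (s2 (s1 (s0 (s2 lf lf) (s2 lf lf)) (s0 (s2 lf lf) (s2 (s1 lf lf) lf))) (s1 (s0 lf (s2 lf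
    lf)) (s0 (s2 lf lf) (s2 lf lf))))))
    ⟨79228162514264486071594165208, 40110184181269, 79228162514264422036036963532,
    56294995342132, 79228162514264443146660216832, 35184372088832⟩ (by decide +kernel)

theorem MG_5 : Hd QMG 79228162514264385796133712035 20055092090635 79228162514264506478529976730
    28147497671066 79228162514264372777916039168 35184372088832 :=
  okMG (s2 (s1 (s0 (s2 (s1 (s0 lf lf) (s0 lf lf)) (s1 (s0 lf lf) (s0 lf lf))) (s2 (s1 (s0 lf lf)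
    (s0 lf lf)) (s1 (s0 lf lf) (s0 lf lf)))) (s0 (s2 (s1 (s0 lf lf) (s0 lf lf)) (s1 (s0 lf lf)
    (s0 lf lf))) (s2 (s1 (s0 lf lf) (s0 lf lf)) (s1 (s0 lf lf) (s0 lf lf))))) (s1 (s0 (s2 (s1
    (s0 lf lf) (s0 lf lf)) (s1 (s0 lf lf) (s0 lf lf))) (s2 (s1 (s0 lf lf) (s0 lf lf)) (s1 (s0 lf
    lf) (s0 lf lf)))) (s0 (s2 (s1 (s0 lf lf) (s0 lf lf)) (s1 (s0 lf lf) (s0 lf lf))) (s2 (s1 (s0
    lf lf) (s0 lf lf)) (s1 (s0 lf lf) (s0 lf lf))))))
    ⟨79228162514264385796133712035, 20055092090635, 79228162514264506478529976730,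
    28147497671066, 79228162514264372777916039168, 35184372088832⟩ (by decide +kernel)

theorem MG_6 : Hd QMG 79228162514264425906317893305 20055092090635 79228162514264506478529976730
    28147497671066 79228162514264372777916039168 35184372088832 :=
  okMG (s2 (s1 (s0 (s2 (s1 (s0 lf lf) (s0 lf lf)) (s1 (s0 lf lf) (s0 lf lf))) (s2 (s1 (s0 lf lf)
    (s0 lf lf)) (s1 lf (s0 lf lf)))) (s0 (s2 (s1 (s0 lf lf) (s0 lf lf)) (s1 (s0 lf lf) (s0 lf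
    lf))) (s2 (s1 (s0 lf lf) (s0 lf lf)) (s1 (s0 lf lf) (s0 lf lf))))) (s1 (s0 (s2 (s1 (s0 lf
    lf) (s0 lf lf)) (s1 lf (s0 lf lf))) (s2 (s1 lf lf) (s1 lf lf))) (s0 (s2 (s1 (s0 lf lf) (s0
    lf lf)) (s1 (s0 lf lf) (s0 lf lf))) (s2 (s1 (s0 lf lf) (s0 lf lf)) (s1 lf lf)))))
    ⟨79228162514264425906317893305, 20055092090635, 79228162514264506478529976730,
    28147497671066, 79228162514264372777916039168, 35184372088832⟩ (by decide +kernel)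

theorem MG_7 : Hd QMG 79228162514264385796133712035 20055092090635 79228162514264562773525318862
    28147497671066 79228162514264372777916039168 35184372088832 :=
  okMG (s2 (s1 (s0 (s2 (s1 (s0 lf lf) (s0 lf lf)) (s1 (s0 lf lf) (s0 lf lf))) (s2 (s1 (s0 lf lf)
    (s0 lf lf)) (s1 (s0 lf lf) (s0 lf lf)))) (s0 (s2 (s1 (s0 (s0 lf lf) lf) (s0 (s1 lf lf) (s1
    lf lf))) (s1 (s0 lf lf) (s0 (s1 lf lf) lf))) (s2 (s1 (s0 lf lf) (s0 lf lf)) (s1 (s0 lf lf)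
    (s0 lf lf))))) (s1 (s0 (s2 (s1 (s0 lf lf) (s0 lf lf)) (s1 (s0 lf lf) (s0 lf lf))) (s2 (s1
    (s0 lf lf) (s0 lf lf)) (s1 (s0 lf lf) (s0 lf lf)))) (s0 (s2 (s1 (s0 lf lf) (s0 (s1 lf lf)
    lf)) (s1 (s0 lf lf) (s0 (s1 lf lf) lf))) (s2 (s1 (s0 lf lf) (s0 lf lf)) (s1 (s0 lf lf) (s0
    lf lf))))))
    ⟨79228162514264385796133712035, 20055092090635, 79228162514264562773525318862,
    28147497671066, 79228162514264372777916039168, 35184372088832⟩ (by decide +kernel)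

theorem MG_8 : Hd QMG 79228162514264425906317893305 20055092090635 79228162514264562773525318862
    28147497671066 79228162514264372777916039168 35184372088832 :=
  okMG (s2 (s1 (s0 (s2 (s1 (s0 lf lf) (s0 lf lf)) (s1 (s0 lf lf) (s0 lf lf))) (s2 (s1 (s0 lf lf)
    (s0 lf lf)) (s1 (s0 lf lf) (s0 lf lf)))) (s0 (s2 (s1 (s0 lf lf) (s0 lf lf)) (s1 (s0 lf lf)
    (s0 lf lf))) (s2 (s1 (s0 lf lf) (s0 lf lf)) (s1 (s0 lf lf) (s0 lf lf))))) (s1 (s0 (s2 (s1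
    (s0 lf lf) (s0 lf lf)) (s1 (s0 lf lf) (s0 lf lf))) (s2 (s1 (s0 lf lf) (s0 lf lf)) (s1 (s0 lf
    lf) (s0 lf lf)))) (s0 (s2 (s1 (s0 lf lf) (s0 lf lf)) (s1 (s0 lf lf) (s0 lf lf))) (s2 (s1 (s0
    lf lf) (s0 lf lf)) (s1 (s0 lf lf) (s0 lf lf))))))
    ⟨79228162514264425906317893305, 20055092090635, 79228162514264562773525318862,
    28147497671066, 79228162514264372777916039168, 35184372088832⟩ (by decide +kernel)

end H41FT
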