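import Pool.Agent.H41.FT.Claims

/-! Branch and bound data, generated. -/

set_option maxRecDepth 100000

namespace H41FT

open Tr

theorem MG_9 : Hd QMG 79228162514264405851225802670 40110184181269 79228162514264506478529976730
    28147497671066 79228162514264443146660216832 35184372088832 :=
  okMG (s0 (s2 (s1 (s0 (s2 (s1 (s0 lf lf) (s0 lf lf)) (s1 (s0 lf lf) (s0 lf lf))) (s2 (s1 (s0 lf
    lf) (s0 lf lf)) (s1 (s0 lf lf) (s0 lf lf)))) (s0 (s2 (s1 (s0 lf lf) (s0 lf lf)) (s1 (s0 lf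
    lf) (s0 lf lf))) (s2 (s1 (s0 lf lf) (s0 lf lf)) (s1 (s0 lf lf) (s0 lf lf))))) (s1 (s0 (s2
    (s1 (s0 lf lf) (s0 lf lf)) (s1 (s0 lf lf) (s0 lf lf))) (s2 (s0 lf lf) (s0 lf lf))) (s0 (s2
    (s1 (s0 lf lf) (s0 lf lf)) (s1 (s0 lf lf) (s0 lf lf))) (s2 (s0 lf lf) (s0 lf lf))))) (s2 (s1
    (s0 (s2 (s0 lf lf) (s0 lf lf)) (s2 (s1 lf lf) (s1 lf lf))) (s0 (s2 (s1 (s0 lf lf) (s0 lf
    lf)) (s0 lf lf)) (s2 (s1 lf lf) (s1 lf lf)))) (s1 (s0 (s2 (s0 lf lf) (s0 lf lf)) (s2 (s0 lf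
    lf) (s0 lf lf))) (s0 (s2 (s0 lf lf) (s0 lf lf)) (s2 (s1 lf lf) (s0 lf lf))))))
    ⟨79228162514264405851225802670, 40110184181269, 79228162514264506478529976730,
    28147497671066, 79228162514264443146660216832, 35184372088832⟩ (by decide +kernel)

theorem MG_10 : Hd QMG 79228162514264385796133712035 20055092090635
    79228162514264562773525318862 28147497671066 79228162514264443146660216832 35184372088832 :=
  okMG (s2 (s1 (s0 (s2 (s1 (s0 lf lf) (s0 lf lf)) (s1 (s0 lf lf) (s0 lf lf))) (s2 (s1 (s0 lf lf)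
    (s0 lf lf)) (s1 (s0 lf lf) (s0 lf lf)))) (s0 (s2 (s1 (s0 lf lf) (s0 lf lf)) (s1 (s0 lf lf)
    (s0 lf lf))) (s2 (s1 (s0 lf lf) (s0 lf lf)) (s1 (s0 lf lf) (s0 lf lf))))) (s1 (s0 (s2 (s1
    (s0 lf lf) (s0 lf lf)) (s1 (s0 lf lf) (s0 lf lf))) (s2 (s1 (s0 lf lf) (s0 lf lf)) (s1 (s0 lf
    lf) (s0 lf lf)))) (s0 (s2 (s1 (s0 lf lf) (s0 lf lf)) (s1 (s0 lf lf) (s0 lf lf))) (s2 (s1 (s0
    lf lf) (s0 lf lf)) (s1 (s0 lf lf) (s0 lf lf))))))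
    ⟨79228162514264385796133712035, 20055092090635, 79228162514264562773525318862,
    28147497671066, 79228162514264443146660216832, 35184372088832⟩ (by decide +kernel)

theorem MG_11 : Hd QMG 79228162514264425906317893305 20055092090635
    79228162514264562773525318862 28147497671066 79228162514264443146660216832 35184372088832 :=
  okMG (s2 (s1 (s0 (s2 (s1 (s0 lf lf) (s0 lf lf)) (s1 (s0 lf lf) (s0 lf lf))) (s2 (s1 lf (s0 lf
    lf)) (s1 lf lf))) (s0 (s2 (s1 (s0 lf lf) (s0 lf lf)) (s1 (s0 lf lf) (s0 lf lf))) (s2 (s1 (s0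
    lf lf) (s0 lf lf)) (s1 (s0 lf lf) (s0 lf lf))))) (s1 (s0 (s2 (s1 lf (s0 lf lf)) (s1 lf lf))
    (s2 (s1 lf lf) (s1 lf lf))) (s0 (s2 (s1 (s0 lf lf) (s0 lf lf)) (s1 (s0 lf lf) (s0 lf lf)))
    (s1 (s2 lf lf) (s2 (s0 lf lf) (s0 lf lf))))))
    ⟨79228162514264425906317893305, 20055092090635, 79228162514264562773525318862,
    28147497671066, 79228162514264443146660216832, 35184372088832⟩ (by decide +kernel)

theorem MG_12 : Hd QMG 79228162514264486071594165208 40110184181269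
    79228162514264506478529976730 28147497671066 79228162514264372777916039168 35184372088832 :=
  okMG (s0 (s2 (s1 (s0 (s2 (s1 lf (s0 lf lf)) (s1 lf lf)) (s2 (s1 lf (s0 lf lf)) (s1 lf lf)))
    (s0 (s2 (s1 (s0 lf lf) (s0 lf lf)) (s1 (s0 lf lf) (s0 lf lf))) (s2 (s1 (s0 lf lf) (s0 lf
    lf)) (s1 (s0 lf lf) (s0 lf lf))))) (s1 (s0 (s2 (s1 lf lf) (s1 lf lf)) (s2 (s1 lf lf) (s1 lf
    lf))) (s0 (s2 (s1 lf (s0 lf lf)) (s1 lf lf)) (s2 (s1 lf (s0 lf lf)) (s1 lf lf))))) (s2 (s1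
    (s0 (s2 (s1 (s2 lf lf) (s0 lf lf)) (s1 lf (s0 lf lf))) (s2 (s1 (sk 0) (s0 lf (sk 0))) (s1
    (s0 (sk 0) (sk 0)) (s0 lf (sk 0))))) (s0 (s2 (s1 (s0 lf lf) (s0 lf lf)) (s1 (s0 lf lf) (s0
    lf lf))) (s2 (s1 (s0 lf (sk 0)) (s0 lf (s2 (sk 0) lf))) (s1 (s0 lf (sk 0)) (s0 lf lf)))))
    (s1 (s0 (s2 (s1 lf lf) (s1 lf lf)) (s2 (s1 lf (s0 lf (sk 0))) (s1 lf lf))) (s0 (s2 (s1 (s0
    lf lf) (s0 lf lf)) (s1 lf (s0 lf lf))) (s2 (s1 (s0 lf lf) (s0 lf lf)) (s1 (s0 lf lf) (s0 lf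
    lf)))))))
    ⟨79228162514264486071594165208, 40110184181269, 79228162514264506478529976730,
    28147497671066, 79228162514264372777916039168, 35184372088832⟩ (by decide +kernel)

theorem MG_13 : Hd QMG 79228162514264466016502074573 20055092090635
    79228162514264562773525318862 28147497671066 79228162514264372777916039168 35184372088832 :=
  okMG (s2 (s1 (s0 (s2 (s1 (s0 lf lf) (s0 lf lf)) (s1 (s0 lf lf) (s0 lf lf))) (s2 (s1 (s0 lf lf)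
    (s0 lf lf)) (s1 (s0 lf lf) (s0 lf lf)))) (s0 (s2 (s1 (s0 lf lf) (s0 lf lf)) (s1 (s0 lf lf)
    (s0 lf lf))) (s2 (s1 (s0 lf lf) (s0 lf lf)) (s1 (s0 lf lf) (s0 lf lf))))) (s1 (s0 (s2 (s1
    (s0 lf lf) (s0 lf lf)) (s1 lf (s0 lf lf))) (s2 (s1 (s0 lf lf) (s0 lf lf)) (s1 (s0 lf lf) (s0
    lf lf)))) (s0 (s2 (s1 (s0 lf lf) (s0 lf lf)) (s1 (s0 lf lf) (s0 lf lf))) (s2 (s1 (s0 lf lf)
    (s0 lf lf)) (s1 (s0 lf lf) (s0 lf lf))))))
    ⟨79228162514264466016502074573, 20055092090635, 79228162514264562773525318862,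
    28147497671066, 79228162514264372777916039168, 35184372088832⟩ (by decide +kernel)

theorem MG_14 : Hd QMG 79228162514264506126686255843 20055092090635
    79228162514264562773525318862 28147497671066 79228162514264372777916039168 35184372088832 :=
  okMG (s2 (s1 (s0 (s2 (s1 (s0 lf lf) (s0 lf lf)) (s1 (s0 lf lf) (s0 lf lf))) (s2 (s1 (s0 (s2 lf
    lf) (s2 lf lf)) (s0 (s2 lf lf) (s2 lf lf))) (s1 (s0 lf lf) (s0 lf (s2 lf lf))))) (s0 (s2 (s1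
    (s0 lf (s2 lf lf)) (s0 (s1 lf lf) (s1 lf lf))) (s1 (s0 lf lf) (s0 lf (s1 lf lf)))) (s2 (s1
    (s0 (s2 lf lf) (s2 lf lf)) (s0 (s2 lf lf) (s2 (s1 lf lf) (s1 lf lf)))) (s1 (s0 (s2 lf lf)
    (s2 lf lf)) (s0 (s1 lf lf) (s2 lf lf)))))) (s1 (s0 (s2 (s1 (s0 lf lf) (s0 lf lf)) (s1 (s0 lf
    lf) (s0 lf lf))) (s2 (s1 (s0 lf lf) (s0 lf lf)) (s1 (s0 lf lf) (s0 lf lf)))) (s0 (s2 (s1 (s0
    lf lf) (s0 lf lf)) (s1 (s0 lf lf) (s0 lf lf))) (s2 (s1 (s0 lf (s2 lf lf)) (s0 (s1 lf lf) (s1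
    lf lf))) (s1 (s0 lf lf) (s0 lf (s1 lf lf)))))))
    ⟨79228162514264506126686255843, 20055092090635, 79228162514264562773525318862,
    28147497671066, 79228162514264372777916039168, 35184372088832⟩ (by decide +kernel)

end H41FT
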