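import Pool.Agent.H41.FT.Claims

/-! Branch and bound data, generated. -/

set_option maxRecDepth 100000

namespace H41FT

open Tr

theorem MG_15 : Hd QMG 79228162514264486071594165208 40110184181269
    79228162514264506478529976730 28147497671066 79228162514264443146660216832 35184372088832 :=
  okMG (s0 (s2 (s1 (s0 (s2 (s1 lf lf) (s1 lf lf)) (s2 (s1 lf lf) (s1 lf lf))) (s0 (s2 (s1 lf lf)
    (s1 lf lf)) (s2 (s1 lf lf) (s1 lf lf)))) (s1 (s0 (s2 (s1 lf lf) (s1 lf lf)) (s2 (s1 lf lf)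
    lf)) (s0 (s2 (s1 lf lf) (s1 lf lf)) (s2 (s1 lf lf) (s1 lf lf))))) (s2 (s1 (s0 (s2 (s1 lf lf)
    (s1 lf lf)) (s2 (s1 lf lf) (s1 lf lf))) (s0 (s2 (s1 lf lf) (s1 lf lf)) (s2 (s1 lf (s0 lf
    lf)) (s1 lf lf)))) (s1 (s0 (s2 (s1 lf lf) lf) (s2 (s1 lf lf) (s1 lf lf))) (s0 (s2 (s1 lf lf)
    (s1 lf lf)) (s2 (s1 lf lf) (s1 lf lf))))))
    ⟨79228162514264486071594165208, 40110184181269, 79228162514264506478529976730,
    28147497671066, 79228162514264443146660216832, 35184372088832⟩ (by decide +kernel)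

theorem MG_16 : Hd QMG 79228162514264486071594165208 40110184181269
    79228162514264562773525318862 28147497671066 79228162514264443146660216832 35184372088832 :=
  okMG (s0 (s2 (s1 (s0 (s2 (s1 lf lf) (s1 lf lf)) (s2 (s1 lf lf) (s1 lf lf))) (s0 (s2 (s1 (s0 lf
    lf) (s0 lf lf)) (s1 lf (s0 lf lf))) (s2 (s1 (s0 lf lf) (s0 lf lf)) (s1 lf (s0 lf lf))))) (s1
    (s0 (s2 (s1 lf lf) (s1 lf lf)) (s2 (s1 lf lf) (s1 lf lf))) (s0 (s1 (s2 lf lf) (s2 (s0 lf lf)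
    lf)) (s2 (s1 lf (s0 lf lf)) (s1 lf lf))))) (s2 (s1 (s0 (s2 (s1 lf (s0 lf lf)) (s1 lf lf))
    (s2 (s1 (s0 lf lf) (s0 lf lf)) (s1 (s0 lf lf) (s0 lf lf)))) (s0 (s2 (s1 (s0 lf lf) (s0 lf
    lf)) (s1 (s0 lf lf) (s0 lf lf))) (s2 (s1 (s0 lf lf) (s0 lf lf)) (s1 (s0 lf lf) (s0 lf
    lf))))) (s1 (s0 (s2 (s1 lf lf) (s1 lf lf)) (s2 (s1 lf (s0 lf lf)) (s1 lf lf))) (s0 (s2 (s1
    lf (s0 lf lf)) (s1 lf (s0 lf lf))) (s2 (s1 (s0 lf lf) (s0 lf lf)) (s1 (s0 lf lf) (s0 lf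
    lf)))))))
    ⟨79228162514264486071594165208, 40110184181269, 79228162514264562773525318862,
    28147497671066, 79228162514264443146660216832, 35184372088832⟩ (by decide +kernel)

theorem MG_17 : Hd QMG 79228162514264405851225802670 40110184181269
    79228162514264422036036963532 56294995342132 79228162514264513515404394496 35184372088832 :=
  okMG (s1 (s0 (s2 (s1 (s0 (s0 lf lf) (s1 lf lf)) (s0 (s0 (s1 lf lf) lf) (s0 lf lf))) (s1 (s0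
    (s0 lf lf) (s1 lf lf)) (s0 (s0 lf lf) (s0 lf lf)))) (s2 (s1 (s0 (s1 lf lf) lf) (s0 lf lf))
    (s1 (s0 (s1 lf lf) lf) (s0 lf lf)))) (s0 (s2 (s1 (s0 (s0 (s1 lf lf) (s1 lf lf)) (s0 lf lf))
    (s0 (s2 (s1 (s0 lf lf) (s0 lf lf)) (s1 (s0 lf lf) (s0 lf lf))) (s2 (s0 lf lf) (s0 lf lf))))
    (s1 (s0 (s0 (s1 lf lf) lf) (s0 lf lf)) (s0 (s2 (s0 (s1 lf lf) lf) (s0 (s1 lf lf) lf)) (s0
    (s1 lf lf) lf)))) (s2 (s1 (s0 (s0 lf lf) lf) (s0 (s0 lf lf) (s0 lf lf))) (s1 (s0 (s0 lf lf)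
    lf) (s0 (s0 lf lf) (s0 lf lf))))))
    ⟨79228162514264405851225802670, 40110184181269, 79228162514264422036036963532,
    56294995342132, 79228162514264513515404394496, 35184372088832⟩ (by decide +kernel)

theorem MG_18 : Hd QMG 79228162514264405851225802670 40110184181269
    79228162514264422036036963532 56294995342132 79228162514264583884148572160 35184372088832 :=
  okMG (s1 (s0 (s2 (s1 (s0 (s0 lf lf) (s1 lf lf)) (s0 (s0 lf lf) (s0 lf lf))) (s1 (s0 (s0 lf lf)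
    (s0 lf lf)) (s0 (s0 lf lf) (s0 lf lf)))) (s2 (s1 (s0 lf lf) (s0 lf lf)) (s1 (s0 lf lf) (s0
    lf lf)))) (s0 (s2 (s1 (s0 (s0 (s1 lf lf) lf) (s0 lf lf)) (s0 (s2 (s0 (s1 lf lf) lf) (s0 (s1
    lf lf) lf)) (s0 lf lf))) (s1 (s0 (s0 (s1 lf lf) lf) (s0 lf lf)) (s0 (s2 (s0 (s1 lf lf) lf)
    (s0 lf lf)) (s0 lf lf)))) (s2 (s1 (s0 (s0 lf lf) lf) (s0 (s0 lf lf) (s0 lf lf))) (s1 (s0 (s0
    lf lf) lf) (s0 (s0 lf lf) (s0 lf lf))))))
    ⟨79228162514264405851225802670, 40110184181269, 79228162514264422036036963532,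
    56294995342132, 79228162514264583884148572160, 35184372088832⟩ (by decide +kernel)

theorem MG_19 : Hd QMG 79228162514264486071594165208 40110184181269
    79228162514264422036036963532 56294995342132 79228162514264548699776483328 70368744177664 :=
  okMG (s2 (s1 (s0 (s2 (s1 (s0 lf lf) (s0 lf lf)) (s1 (s0 lf lf) (s0 lf lf))) (s2 (s1 (s0 lf lf)
    (s0 lf lf)) (s1 (s0 lf lf) (s0 lf lf)))) (s0 (s2 (s1 (s0 lf lf) (s0 (s1 lf lf) (s2 lf lf)))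
    (s1 (s0 lf lf) (s0 (s1 lf lf) lf))) (s2 (s1 (s0 lf lf) (s0 (s2 lf lf) (s2 lf lf))) (s1 (s0
    lf lf) (s0 lf lf))))) (s1 (s0 (s2 (s1 (s0 lf lf) (s0 lf lf)) (s1 (s0 lf lf) (s0 lf lf))) (s2
    (s1 (s0 lf lf) (s0 lf lf)) (s1 (s0 lf lf) (s0 lf lf)))) (s0 (s2 (s1 (s0 lf lf) (s0 lf lf))
    (s1 (s0 lf lf) (s0 lf lf))) (s2 (s1 (s0 lf lf) (s0 lf lf)) (s1 (s0 lf lf) (s0 lf lf))))))
    ⟨79228162514264486071594165208, 40110184181269, 79228162514264422036036963532,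
    56294995342132, 79228162514264548699776483328, 70368744177664⟩ (by decide +kernel)

theorem MG_20 : Hd QMG 79228162514264405851225802670 40110184181269
    79228162514264506478529976730 28147497671066 79228162514264513515404394496 35184372088832 :=
  okMG (s0 (s2 (s1 (s0 (s2 (s1 (s0 lf lf) (s0 lf lf)) (s1 (s0 lf lf) (s0 lf lf))) (s2 (s0 lf lf)
    (s0 lf lf))) (s0 (s2 (s1 (s0 lf lf) (s0 lf lf)) (s1 (s0 lf lf) (s0 lf lf))) (s2 (s0 lf lf)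
    (s0 lf lf)))) (s1 (s0 (s2 (s1 (s0 lf lf) (s0 lf lf)) (s1 (s0 lf lf) (s0 lf lf))) (s2 (s0 lf
    lf) (s0 lf lf))) (s0 (s2 (s1 (s0 lf lf) (s0 lf lf)) (s1 (s0 lf lf) (s0 lf lf))) (s2 (s0 lf
    lf) (s0 lf lf))))) (s2 (s1 (s0 (s2 (s0 lf lf) (s0 lf lf)) (s2 (s0 lf lf) (s0 lf lf))) (s0
    (s2 (s0 lf lf) (s0 lf lf)) (s2 (s0 lf lf) (s0 lf lf)))) (s1 (s0 (s2 (s0 lf lf) (s0 lf lf))
    (s0 lf lf)) (s0 (s2 (s0 lf lf) (s0 lf lf)) (s2 (s0 lf lf) (s0 lf lf))))))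
    ⟨79228162514264405851225802670, 40110184181269, 79228162514264506478529976730,
    28147497671066, 79228162514264513515404394496, 35184372088832⟩ (by decide +kernel)

end H41FT
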