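import Pool.Agent.H41.FT.Claims

/-! Branch and bound data, generated. -/

set_option maxRecDepth 100000

namespace H41FT

open Tr

theorem MG_21 : Hd QMG 79228162514264405851225802670 40110184181269
    79228162514264562773525318862 28147497671066 79228162514264513515404394496 35184372088832 :=
  okMG (s0 (s2 (s1 (s0 (s2 (s1 (s0 lf lf) (s0 lf lf)) (s1 (s0 lf lf) (s0 lf lf))) (s2 (s1 (s0 lf
    lf) (s0 lf lf)) (s1 (s0 lf lf) (s0 lf lf)))) (s0 (s2 (s1 (s0 lf lf) (s0 lf lf)) (s1 (s0 lf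
    lf) (s0 lf lf))) (s2 (s1 (s0 lf lf) (s0 lf lf)) (s1 (s0 lf lf) (s0 lf lf))))) (s1 (s0 (s2
    (s1 (s0 lf lf) (s0 lf lf)) (s1 (s0 lf lf) (s0 lf lf))) (s2 (s1 (s0 lf lf) (s0 lf lf)) (s0 lf
    lf))) (s0 (s2 (s1 (s0 lf lf) (s0 lf lf)) (s1 (s0 lf lf) (s0 lf lf))) (s1 (s2 (s0 lf lf) (s0
    lf lf)) (s2 (s0 lf lf) (s0 lf lf)))))) (s2 (s1 (s0 (s2 (s1 lf lf) (s1 lf lf)) (s2 (s1 lf lf)
    (s1 lf lf))) (s0 (s1 (s2 lf lf) (s2 (s0 lf lf) (s0 lf lf))) (s1 (s2 lf lf) (s2 lf lf)))) (s1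
    (s0 (s2 (s0 lf lf) (s0 lf lf)) (s2 (s1 lf lf) (s1 lf lf))) (s0 (s1 (s2 lf lf) (s2 (s0 lf lf)
    (s0 lf lf))) (s1 (s2 lf lf) (s2 lf lf))))))
    ⟨79228162514264405851225802670, 40110184181269, 79228162514264562773525318862,
    28147497671066, 79228162514264513515404394496, 35184372088832⟩ (by decide +kernel)

theorem MG_22 : Hd QMG 79228162514264405851225802670 40110184181269
    79228162514264506478529976730 28147497671066 79228162514264583884148572160 35184372088832 :=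
  okMG (s0 (s2 (s1 (s0 (s2 (s1 (s0 lf lf) (s0 lf lf)) (s0 (s1 lf lf) lf)) (s2 (s0 lf lf) (s0 lf
    lf))) (s0 (s2 (s1 (s0 lf lf) (s0 lf lf)) (s0 (s1 lf lf) lf)) (s2 (s0 lf lf) (s0 lf lf))))
    (s1 (s0 (s2 (s0 (s1 lf lf) lf) (s0 (s1 lf lf) lf)) (s2 (s0 lf lf) (s0 lf lf))) (s0 (s2 (s0
    (s1 lf lf) lf) (s0 (s1 lf lf) lf)) (s2 (s0 lf lf) (s0 lf lf))))) (s2 (s1 (s0 (s0 lf lf) (s0
    lf lf)) (s0 (s2 (s0 lf lf) (s0 lf lf)) (s2 (s0 lf lf) (s0 lf lf)))) (s1 (s0 (s0 lf lf) (s0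
    lf lf)) (s0 (s2 (s0 lf lf) (s0 lf lf)) (s2 (s0 lf lf) (s0 lf lf))))))
    ⟨79228162514264405851225802670, 40110184181269, 79228162514264506478529976730,
    28147497671066, 79228162514264583884148572160, 35184372088832⟩ (by decide +kernel)

theorem MG_23 : Hd QMG 79228162514264405851225802670 40110184181269
    79228162514264562773525318862 28147497671066 79228162514264583884148572160 35184372088832 :=
  okMG (s0 (s2 (s1 (s0 (s2 (s1 (s0 lf lf) (s0 lf lf)) (s1 (s0 lf lf) (s0 lf lf))) (s2 (s0 lf lf)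
    (s0 lf lf))) (s0 (s2 (s1 (s0 lf lf) (s0 lf lf)) (s1 (s0 lf lf) (s0 lf lf))) (s1 (s2 (s0 lf
    lf) (s0 lf lf)) (s2 (s0 lf lf) (s0 lf lf))))) (s1 (s0 (s2 (s1 (s0 lf lf) (s0 lf lf)) (s1 (s0
    lf lf) (s0 lf lf))) (s2 (s0 lf lf) (s0 lf lf))) (s0 (s2 (s1 (s0 lf lf) (s0 lf lf)) (s1 (s0
    lf lf) (s0 lf lf))) (s1 (s0 lf lf) (s2 (s0 lf lf) (s0 lf lf)))))) (s2 (s1 (s0 (s2 (s0 lf lf)
    (s0 lf lf)) (s2 (s1 lf lf) (s1 lf lf))) (s0 (s1 (s0 lf lf) (s2 lf lf)) (s1 (s0 lf lf) (s2 lf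
    lf)))) (s1 (s0 (s2 (s0 lf lf) (s0 lf lf)) (s2 (s1 lf lf) (s1 lf lf))) (s0 (s1 (s0 lf lf) (s0
    lf lf)) (s1 lf (s0 lf lf))))))
    ⟨79228162514264405851225802670, 40110184181269, 79228162514264562773525318862,
    28147497671066, 79228162514264583884148572160, 35184372088832⟩ (by decide +kernel)

theorem MG_24 : Hd QMG 79228162514264486071594165208 40110184181269
    79228162514264506478529976730 28147497671066 79228162514264513515404394496 35184372088832 :=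
  okMG (s0 (s2 (s1 (s0 (s2 lf lf) (s2 lf lf)) (s0 (s2 (s1 lf lf) (s1 lf lf)) (s2 (s1 lf lf) (s1
    lf lf)))) (s1 (s0 (s1 lf lf) (s1 lf lf)) (s0 (s2 (s1 lf lf) (s1 lf lf)) (s2 (s1 lf lf)
    lf)))) (s2 (s1 (s0 (s2 lf lf) (s2 lf lf)) (s0 (s2 (s1 lf lf) (s1 lf lf)) (s2 (s1 lf lf) (s1
    lf lf)))) (s1 (s0 (s2 lf lf) (s2 lf lf)) (s0 (s2 (s1 lf lf) lf) (s2 (s1 lf lf) (s1 lf
    lf))))))
    ⟨79228162514264486071594165208, 40110184181269, 79228162514264506478529976730,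
    28147497671066, 79228162514264513515404394496, 35184372088832⟩ (by decide +kernel)

theorem MG_25 : Hd QMG 79228162514264486071594165208 40110184181269
    79228162514264562773525318862 28147497671066 79228162514264513515404394496 35184372088832 :=
  okMG (s0 (s2 (s1 (s0 (s2 (s1 lf lf) (s1 lf lf)) (s2 (s1 lf lf) (s1 lf lf))) (s0 (s1 (s2 lf lf)
    (s2 lf lf)) (s1 (s2 lf lf) (s2 lf lf)))) (s1 (s0 (s2 (s1 lf lf) (s1 lf lf)) (s2 (s1 lf lf)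
    (s1 lf lf))) (s0 (s1 (s2 lf lf) (s2 lf lf)) (s1 (s2 lf lf) (s2 lf lf))))) (s2 (s1 (s0 (s2
    (s1 lf lf) (s1 lf lf)) (s2 (s1 lf lf) (s1 lf lf))) (s0 (s1 (s2 lf lf) (s2 lf lf)) (s2 (s1 lf
    (s0 lf lf)) (s1 lf (s0 lf lf))))) (s1 (s0 (s2 (s1 lf lf) (s1 lf lf)) (s2 (s1 lf lf) (s1 lf
    lf))) (s0 (s1 (s2 lf lf) (s2 lf lf)) (s1 (s2 lf lf) (s2 lf lf))))))
    ⟨79228162514264486071594165208, 40110184181269, 79228162514264562773525318862,
    28147497671066, 79228162514264513515404394496, 35184372088832⟩ (by decide +kernel)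

theorem MG_26 : Hd QMG 79228162514264486071594165208 40110184181269
    79228162514264534626027647796 56294995342132 79228162514264583884148572160 35184372088832 :=
  okMG (s1 (s0 (s2 (s1 (s0 (s1 lf lf) (s1 lf lf)) (s0 (s2 (s1 lf lf) lf) (s2 lf lf))) (s1 (s0
    (s1 lf lf) lf) (s0 (s2 lf lf) (s1 lf lf)))) (s2 (s1 (s0 (s1 lf lf) (s2 lf lf)) (s0 (s2 lf
    lf) (s2 lf lf))) (s1 (s0 lf lf) (s0 (s2 lf lf) (s2 lf lf))))) (s0 (s2 (s1 (s0 (s2 (s1 lf lf)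
    (s1 lf lf)) (s2 (s1 lf lf) (s1 lf lf))) (s0 (s1 lf (s2 lf lf)) (s1 lf (s2 lf lf)))) (s1 (s0
    (s2 (s1 lf lf) (s1 lf lf)) (s1 lf lf)) (s0 (s1 lf lf) (s1 lf lf)))) (s2 (s1 (s0 (s2 (s1 lf
    lf) (s1 lf lf)) (s2 (s1 lf lf) (s1 lf lf))) (s0 (s1 lf (s2 lf lf)) (s1 (s2 lf lf) (s2 lf
    lf)))) (s1 (s0 (s1 lf lf) (s2 (s1 lf lf) lf)) (s0 (s1 lf lf) (s1 lf (s2 lf lf)))))))
    ⟨79228162514264486071594165208, 40110184181269, 79228162514264534626027647796,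
    56294995342132, 79228162514264583884148572160, 35184372088832⟩ (by decide +kernel)

theorem SA_0 : Hd QSA 79228162514264350259917902316 12666373951980 79228162514264350259917902316
    12666373951980 79228162514264350259917902316 12666373951980 :=
  okSA (s2 (s2 lf lf) (s2 (s0 lf lf) (s0 lf lf)))
    ⟨79228162514264350259917902316, 12666373951980, 79228162514264350259917902316,
    12666373951980, 79228162514264350259917902316, 12666373951980⟩ (by decide +kernel)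

end H41FT
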