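import Pool.Agent.H41.FT.Claims

/-! Branch and bound data, generated. -/

set_option maxRecDepth 100000

namespace H41FT

open Tr

theorem PE_1 : Hd QPE 79228162514264351667292785869 14073748835533 79228162514264498456493140476
    26543090303815 79228162514264358704167203635 21110623253300 :=
  okPE (s1 lf (s0 lf lf))
    ⟨79228162514264351667292785869, 14073748835533, 79228162514264498456493140476,
    26543090303815, 79228162514264358704167203635, 21110623253300⟩ (by decide +kernel)

theorem PE_2 : Hd QPE 79228162514264351667292785869 14073748835533 79228162514264551542673748106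
    26543090303815 79228162514264358704167203635 21110623253300 :=
  okPE (s1 (s2 (s0 lf lf) (s0 lf lf)) (s2 (s0 lf (s1 lf (s2 lf lf))) (s0 lf lf)))
    ⟨79228162514264351667292785869, 14073748835533, 79228162514264551542673748106,
    26543090303815, 79228162514264358704167203635, 21110623253300⟩ (by decide +kernel)

theorem PF_0 : Hd QPF 79228162514264351667292785869 14073748835533 79228162514264418827222229031
    53086180607630 79228162514264439628223007948 59813432551015 :=
  okPF (s2 (s1 (s2 (s1 lf lf) (s1 lf lf)) (s2 (s1 lf (s2 lf lf)) (s1 lf lf))) (s1 (s1 lf lf) (s2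
    (s1 lf lf) (s1 lf lf))))
    ⟨79228162514264351667292785869, 14073748835533, 79228162514264418827222229031,
    53086180607630, 79228162514264439628223007948, 59813432551015⟩ (by decide +kernel)

theorem PF_1 : Hd QPF 79228162514264351667292785869 14073748835533 79228162514264524999583444291
    53086180607630 79228162514264409721506732440 29906716275508 :=
  okPF (s1 (s2 (s1 (s2 (s0 lf lf) lf) (s2 (s0 lf lf) (s0 lf lf))) (s1 lf (s2 lf lf))) (s2 (s1
    (s2 (s0 lf (s1 lf lf)) (s0 lf lf)) (s2 (s0 (s1 lf lf) (s1 lf lf)) (s0 lf (s1 lf lf)))) (s1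
    (s2 (s0 lf lf) (s0 lf lf)) (s2 (s0 lf lf) (s0 lf lf)))))
    ⟨79228162514264351667292785869, 14073748835533, 79228162514264524999583444291,
    53086180607630, 79228162514264409721506732440, 29906716275508⟩ (by decide +kernel)

theorem PF_2 : Hd QPF 79228162514264351667292785869 14073748835533 79228162514264524999583444291
    53086180607630 79228162514264469534939283456 29906716275508 :=
  okPF (s1 (s2 (s1 lf lf) (s1 lf lf)) (s2 (s1 (s0 lf lf) (s2 (s0 lf lf) lf)) (s1 lf (s0 lf
    lf))))
    ⟨79228162514264351667292785869, 14073748835533, 79228162514264524999583444291,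
    53086180607630, 79228162514264469534939283456, 29906716275508⟩ (by decide +kernel)

theorem PF_3 : Hd QPF 79228162514264351667292785869 14073748835533 79228162514264471913402836661
    106172361215260 79228162514264559255088109978 59813432551015 :=
  okPF (s1 (s2 (s1 (s1 lf lf) (s2 lf lf)) (s1 (s1 lf lf) (s2 lf lf))) (s2 (s1 (s2 (s1 lf lf) (s1
    lf lf)) (s2 (s1 lf lf) (s1 lf lf))) (s1 (s2 (s1 lf lf) (s1 lf lf)) (s2 (s1 lf lf) (s1 lf (s2
    lf (s1 lf lf)))))))
    ⟨79228162514264351667292785869, 14073748835533, 79228162514264471913402836661,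
    106172361215260, 79228162514264559255088109978, 59813432551015⟩ (by decide +kernel)

theorem PG_0 : Hd QPG 79228162514264429072911381299 63331869759898 79228162514264418827222229031
    53086180607630 79228162514264358704167203635 21110623253300 :=
  okPG (s0 (s1 (s0 (s1 lf lf) (s1 lf lf)) (s0 (s0 lf lf) (s1 lf lf))) (s1 (s1 lf lf) (s0 (s1 lf
    lf) (s1 lf lf))))
    ⟨79228162514264429072911381299, 63331869759898, 79228162514264418827222229031,
    53086180607630, 79228162514264358704167203635, 21110623253300⟩ (by decide +kernel)

theorem PG_1 : Hd QPG 79228162514264397406976501350 31665934879949 79228162514264524999583444291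
    53086180607630 79228162514264358704167203635 21110623253300 :=
  okPG (s1 (s0 (s1 (s0 lf lf) (s0 lf lf)) (s1 lf (s2 (s0 lf lf) (s0 lf lf)))) (s0 (s1 (s2 (s0 lf
    lf) (s0 lf lf)) (s2 (s0 (s1 lf lf) (s1 lf (sk 0))) (s0 lf (s2 lf lf)))) (s1 (s2 (s1 lf (s2
    (s0 lf (sk 0)) lf)) (s0 lf (s2 lf lf))) (sk 0))))
    ⟨79228162514264397406976501350, 31665934879949, 79228162514264524999583444291,
    53086180607630, 79228162514264358704167203635, 21110623253300⟩ (by decide +kernel)

end H41FT
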