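import Pool.Agent.H41.FT.Claims

/-! Branch and bound data, generated. -/

set_option maxRecDepth 100000

namespace H41FT

open Tr

theorem PG_2 : Hd QPG 79228162514264460738846261248 31665934879949 79228162514264524999583444291
    53086180607630 79228162514264358704167203635 21110623253300 :=
  okPG (s1 (s0 (s1 (s2 lf lf) (s2 (s1 lf lf) (s0 lf lf))) (s1 (s2 (s1 lf lf) (s0 lf lf)) (s2 (s1
    (s2 lf lf) (sk 0)) (s0 (s2 lf lf) (sk 0))))) (s0 (s1 (sk 0) (sk 0)) (sk 0)))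
    ⟨79228162514264460738846261248, 31665934879949, 79228162514264524999583444291,
    53086180607630, 79228162514264358704167203635, 21110623253300⟩ (by decide +kernel)

theorem PG_3 : Hd QPG 79228162514264555736650901095 63331869759898 79228162514264471913402836661
    106172361215260 79228162514264358704167203635 21110623253300 :=
  okPG (s1 (s0 (s1 (s1 lf lf) (s0 (s1 lf (s2 lf lf)) (s1 lf (s2 (s1 lf lf) lf)))) (s1 (s0 (s1 lf
    lf) (s1 lf lf)) (s0 (s1 lf (s2 (s1 lf lf) (s0 lf lf))) (s1 (s2 lf lf) (s2 (s1 lf (s2 lf lf))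
    (s0 (s1 lf lf) (s1 lf (sk 0)))))))) (s0 (s1 (s0 (s1 (s2 (s1 lf lf) (s0 lf (s1 lf (sk 0))))
    (sk 0)) (s1 (s2 (s1 lf (sk 0)) (s0 (s1 lf (sk 0)) (s1 lf (sk 0)))) (sk 0))) (sk 0)) (s1 (s0
    (sk 0) (sk 0)) (sk 0))))
    ⟨79228162514264555736650901095, 63331869759898, 79228162514264471913402836661,
    106172361215260, 79228162514264358704167203635, 21110623253300⟩ (by decide +kernel)

theorem PH_0 : Hd QPH 79228162514264429072911381299 63331869759898 79228162514264418827222229031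
    53086180607630 79228162514264439628223007948 59813432551015 :=
  okPH (s0 (s2 (s1 (s0 (s2 (s1 (s0 (s2 lf lf) lf) (s0 lf lf)) (s1 (s0 lf lf) (s0 lf lf))) (s2
    (s1 (s2 lf lf) (s2 lf lf)) (s1 lf lf))) (s0 (s2 (s1 (s0 lf lf) (s0 lf lf)) (s1 (s0 lf lf)
    (s0 lf lf))) (s2 (s1 (s2 lf lf) (s2 (s0 lf lf) lf)) (s1 lf lf)))) (s1 (s0 (s1 (s0 (s2 lf lf)
    lf) (s2 lf lf)) (s1 (s2 lf lf) lf)) (s0 (s2 (s1 lf lf) (s1 lf lf)) (s2 (s1 lf lf) (s1 lf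
    lf))))) (s2 (s1 (s2 (s0 (s1 (s2 lf lf) lf) (s1 lf lf)) (s0 (s1 lf lf) (s1 lf lf))) (s2 (s0
    (s1 (s2 lf lf) (s2 (s0 lf lf) lf)) (s1 (s2 lf lf) (s2 (s0 lf lf) (s0 lf lf)))) (s0 (s1 lf
    lf) (s1 lf (s2 lf lf))))) (s1 (s2 (s1 (s0 lf lf) (s0 lf lf)) (s1 lf lf)) (s0 (s2 (s1 lf lf)
    (s1 lf lf)) (s2 (s1 lf lf) (s1 lf lf))))))
    ⟨79228162514264429072911381299, 63331869759898, 79228162514264418827222229031,
    53086180607630, 79228162514264439628223007948, 59813432551015⟩ (by decide +kernel)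

theorem PH_1 : Hd QPH 79228162514264397406976501350 31665934879949 79228162514264524999583444291
    53086180607630 79228162514264439628223007948 59813432551015 :=
  okPH (s2 (s1 (s0 (s2 (s1 (s0 (s2 lf lf) lf) (s0 (s2 (s0 lf lf) lf) (s2 lf lf))) (s1 (s0 lf lf)
    (s0 lf lf))) (s2 (s1 (s2 (s0 lf lf) (s0 lf lf)) (s2 (s0 (s1 lf lf) (s1 lf lf)) (s0 lf lf)))
    (s1 (s2 lf lf) (s2 (s0 lf lf) (s0 lf lf))))) (s0 (s2 (s1 (s0 (s2 (s1 lf lf) (s1 lf lf)) (s2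
    (s1 lf lf) (s1 lf lf))) (s2 (s0 (s1 lf lf) (s1 lf (sk 0))) (s0 (s1 lf lf) (s1 lf (sk 0)))))
    (s1 (s0 (s2 lf lf) (s2 lf lf)) (s0 (s2 (s1 lf lf) lf) (s2 (s1 lf (sk 0)) lf)))) (s2 (s1 (s2
    (s0 (s1 lf lf) (s1 lf (sk 0))) (s0 (s1 lf lf) (s1 lf (sk 0)))) (sk 0)) (s1 (s2 (s0 lf (s1 lf
    (sk 0))) (s0 lf lf)) (sk 0))))) (s1 (s0 (s2 (s1 (s0 lf lf) (s0 lf lf)) (s1 lf (s0 lf lf)))
    (s2 (s1 lf (s0 lf lf)) (s1 lf (s0 lf lf)))) (s0 (s2 (s1 (s0 lf lf) (s0 (s2 lf lf) (s2 lf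
    lf))) (s1 (s0 lf lf) (s0 lf lf))) (s2 (s1 (s0 lf lf) (sk 0)) (s1 (s0 lf lf) (sk 0))))))
    ⟨79228162514264397406976501350, 31665934879949, 79228162514264524999583444291,
    53086180607630, 79228162514264439628223007948, 59813432551015⟩ (by decide +kernel)

theorem PH_2 : Hd QPH 79228162514264460738846261248 31665934879949 79228162514264524999583444291
    53086180607630 79228162514264439628223007948 59813432551015 :=
  okPH (s2 (s1 (s0 (s2 (s1 (s2 (s0 lf lf) (s0 lf lf)) (s2 (s0 (s1 lf lf) (s1 lf lf)) (s0 lf (s1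
    lf lf)))) (s1 (s2 (s0 lf lf) lf) (s2 (s0 lf lf) (s0 lf lf)))) (s2 (s1 (s2 (s0 (s1 lf lf) (s1
    lf lf)) (s0 lf lf)) (s2 (s0 (s1 lf (sk 0)) (sk 0)) (s0 (s1 lf (sk 0)) (sk 0)))) (s1 (s2 (s0
    lf lf) (s0 lf lf)) (s2 (s0 (s1 lf (sk 0)) (sk 0)) (s0 lf (sk 0)))))) (s0 (s2 (s1 (sk 0) (sk
    0)) (s1 (sk 0) (sk 0))) (sk 0))) (s1 (s0 (s2 (s1 (s2 lf lf) (s2 (s0 lf lf) lf)) (s1 lf (s0
    lf lf))) (s2 (s1 (s2 lf lf) (s2 (s0 lf (sk 0)) (s0 lf (sk 0)))) (s1 lf (s2 lf lf)))) (s0 (s2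
    (s1 (sk 0) (sk 0)) (s1 (sk 0) (sk 0))) (sk 0))))
    ⟨79228162514264460738846261248, 31665934879949, 79228162514264524999583444291,
    53086180607630, 79228162514264439628223007948, 59813432551015⟩ (by decide +kernel)

theorem PH_3 : Hd QPH 79228162514264429072911381299 63331869759898 79228162514264418827222229031
    53086180607630 79228162514264559255088109978 59813432551015 :=
  okPH (s0 (s2 (s1 (s0 (s1 (s0 lf lf) (s0 lf lf)) (s1 lf lf)) (s0 (s2 (s0 (s1 lf lf) lf) (s0 (s1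
    lf lf) lf)) (s2 (s1 lf lf) (s1 lf lf)))) (s1 (s0 (s1 (s0 lf lf) lf) (s1 lf lf)) (s0 (s2 (s0
    lf lf) (s0 lf lf)) (s2 (s1 lf lf) (s1 lf lf))))) (s2 (s1 (s1 (s0 lf lf) (s0 lf lf)) (s0 (s2
    (s1 lf lf) (s1 lf lf)) (s2 (s1 lf lf) (s1 lf lf)))) (s1 (s1 (s0 lf lf) (s0 lf lf)) (s0 (s2
    (s1 lf lf) (s1 lf lf)) (s2 (s1 lf lf) (s1 lf lf))))))
    ⟨79228162514264429072911381299, 63331869759898, 79228162514264418827222229031,
    53086180607630, 79228162514264559255088109978, 59813432551015⟩ (by decide +kernel)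

theorem PH_4 : Hd QPH 79228162514264429072911381299 63331869759898 79228162514264524999583444291
    53086180607630 79228162514264559255088109978 59813432551015 :=
  okPH (s0 (s2 (s1 (s0 (s2 (s1 lf (s0 lf lf)) (s1 lf lf)) (s2 (s1 lf lf) (s1 lf lf))) (s0 (s2
    (s1 (s0 lf lf) (s0 lf lf)) (s1 (s0 lf lf) (s0 lf lf))) (s2 (s1 (s0 lf lf) (sk 0)) (s1 lf (sk
    0))))) (s1 (s0 (s2 (s1 lf (s0 lf lf)) (s1 lf (s0 lf lf))) (s2 (s1 lf lf) (s1 lf lf))) (s0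
    (s2 (s1 (s0 lf lf) (s0 lf lf)) (s1 (s0 (s2 lf lf) lf) (s0 (s2 lf (s1 lf lf)) (s2 lf (s1 lf
    (sk 0)))))) (s2 (s1 (s0 lf lf) (sk 0)) (s1 (s0 lf lf) (sk 0)))))) (s2 (s1 (s0 (s2 (s1 lf lf)
    (s1 lf lf)) (s2 (s1 lf (s0 lf (sk 0))) (s1 lf lf))) (s0 (s2 (s1 (sk 0) (sk 0)) (s1 (sk 0)
    (sk 0))) (sk 0))) (s1 (s0 (s2 (s1 lf lf) (s1 lf lf)) (s2 (s1 lf lf) (s1 lf lf))) (s0 (s2 (s1
    (sk 0) (sk 0)) (s1 (sk 0) (sk 0))) (sk 0)))))
    ⟨79228162514264429072911381299, 63331869759898, 79228162514264524999583444291,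
    53086180607630, 79228162514264559255088109978, 59813432551015⟩ (by decide +kernel)

end H41FT
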