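import Pool.Agent.H41.FT.Claims

/-! Branch and bound data, generated. -/

set_option maxRecDepth 100000

namespace H41FT

open Tr

theorem PH_5 : Hd QPH 79228162514264524070716021146 31665934879949 79228162514264418827222229031
    53086180607630 79228162514264439628223007948 59813432551015 :=
  okPH (s2 (s1 (s2 (s0 (s1 lf lf) (s1 lf lf)) (s0 (s1 lf lf) (s1 lf lf))) (s0 (s2 (s1 (s2 lf lf)
    (s2 (s0 lf lf) (s0 lf lf))) (s1 lf (s2 lf lf))) (s2 (s1 (s2 (s0 lf lf) lf) (s2 (s0 (s1 lf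
    lf) (s1 lf lf)) (s0 lf lf))) (s1 lf (s2 (s0 lf lf) (s0 lf lf)))))) (s1 (s2 (s1 lf (s0 lf
    lf)) (s1 lf lf)) (s0 (s2 (s1 lf lf) (s1 lf lf)) (s2 (s1 lf (s2 lf lf)) (s1 lf lf)))))
    ⟨79228162514264524070716021146, 31665934879949, 79228162514264418827222229031,
    53086180607630, 79228162514264439628223007948, 59813432551015⟩ (by decide +kernel)

theorem PH_6 : Hd QPH 79228162514264587402585781044 31665934879949 79228162514264418827222229031
    53086180607630 79228162514264439628223007948 59813432551015 :=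
  okPH (s2 (s1 (s2 (s0 (s1 (s2 lf lf) (s2 lf lf)) (s1 (s2 lf lf) (s2 lf lf))) (s0 (s1 lf lf) (s1
    lf lf))) (s0 (s2 (s1 (s2 (s0 lf lf) (s0 lf lf)) (s2 (s0 (s1 lf lf) (s1 lf lf)) (s0 (s1 lf
    lf) (s1 lf lf)))) (s1 (s2 lf lf) (s2 (s0 lf (s1 lf lf)) (s0 lf lf)))) (s2 (s1 (s2 (s0 (s1 lf
    lf) (s1 lf lf)) (s0 lf lf)) (s2 (s0 (s1 lf lf) (s1 lf (sk 0))) (s0 (s1 lf lf) (s1 lf (sk
    0))))) (s1 (s2 (s0 lf lf) lf) (s2 (s0 (s1 lf lf) (s1 lf (sk 0))) (s0 lf (s1 lf (sk 0))))))))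
    (s1 (s2 (s0 (s1 lf lf) (s1 lf lf)) (s0 (s1 lf lf) (s1 lf lf))) (s0 (s2 (s1 lf (s2 (s0 lf lf)
    lf)) (s1 lf (s2 lf lf))) (s2 (s1 (s2 lf lf) (s2 (s0 lf lf) (s0 lf lf))) (s1 lf (s2 lf
    lf))))))
    ⟨79228162514264587402585781044, 31665934879949, 79228162514264418827222229031,
    53086180607630, 79228162514264439628223007948, 59813432551015⟩ (by decide +kernel)

theorem PH_7 : Hd QPH 79228162514264555736650901095 63331869759898 79228162514264524999583444291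
    53086180607630 79228162514264439628223007948 59813432551015 :=
  okPH (s0 (s2 (s1 (s0 (s2 (s1 (s2 (s0 (s1 lf lf) (s1 lf (sk 0))) (s0 (s1 lf lf) (s1 lf (sk
    0)))) (sk 0)) (s1 (s2 (s0 lf lf) (s0 lf lf)) (sk 0))) (s2 (s1 (s2 (s0 (s1 lf (sk 0)) (s1 lf
    (sk 0))) (s0 (s1 lf (sk 0)) (s1 lf (sk 0)))) (sk 0)) (s1 (s2 (s0 (s1 lf (sk 0)) (s1 lf (sk
    0))) (s0 lf (s1 lf (sk 0)))) (sk 0)))) (sk 0)) (s1 (s0 (s2 (s1 (s2 (s0 lf lf) lf) (sk 0))
    (s1 (s2 lf lf) (sk 0))) (s2 (s1 (s2 (s0 lf lf) (s0 lf lf)) (sk 0)) (s1 (s2 lf lf) (sk 0))))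
    (sk 0))) (s2 (s1 (s0 (sk 0) (sk 0)) (sk 0)) (s1 (s0 (sk 0) (sk 0)) (sk 0))))
    ⟨79228162514264555736650901095, 63331869759898, 79228162514264524999583444291,
    53086180607630, 79228162514264439628223007948, 59813432551015⟩ (by decide +kernel)

theorem PH_8 : Hd QPH 79228162514264555736650901095 63331869759898 79228162514264471913402836661
    106172361215260 79228162514264559255088109978 59813432551015 :=
  okPH (s1 (s0 (s2 (s1 (s1 (s2 lf lf) (s2 lf lf)) (s0 (s2 (s1 lf lf) (s1 lf lf)) (s2 (s1 lf lf)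
    (s1 lf lf)))) (s1 (s1 (s0 lf lf) (s0 lf lf)) (s0 (s2 (s1 lf lf) (s1 lf lf)) (s2 (s1 lf lf)
    (s1 lf lf))))) (s2 (s1 (s2 (s1 lf lf) (s1 lf lf)) (s0 (s2 (s1 lf lf) (s1 lf lf)) (s2 (s1 lf
    (s2 lf lf)) (s1 lf lf)))) (s1 (s1 (s2 lf lf) (s2 lf lf)) (s0 (s2 (s1 lf lf) (s1 lf lf)) (s2
    (s1 lf lf) (s1 lf lf)))))) (s0 (s2 (s1 (s0 (s2 (s1 lf (sk 0)) (s1 lf (sk 0))) (s2 (s1 (s2 lf
    lf) (sk 0)) (s1 lf (sk 0)))) (sk 0)) (s1 (s0 (s2 (s1 lf (sk 0)) (s1 lf (sk 0))) (s2 (s1 lf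
    (sk 0)) (s1 lf (sk 0)))) (sk 0))) (s2 (s1 (s0 (sk 0) (sk 0)) (sk 0)) (s1 (s0 (sk 0) (sk 0))
    (sk 0)))))
    ⟨79228162514264555736650901095, 63331869759898, 79228162514264471913402836661,
    106172361215260, 79228162514264559255088109978, 59813432551015⟩ (by decide +kernel)

theorem ZA_0 : Hd QZA 79228162514264351667292785869 14073748835533 79228162514264351667292785869
    14073748835533 79228162514264478331032305664 140737488355328 :=
  okZA lf
    ⟨79228162514264351667292785869, 14073748835533, 79228162514264351667292785869,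
    14073748835533, 79228162514264478331032305664, 140737488355328⟩ (by decide +kernel)

theorem ZB_0 : Hd QZB 79228162514264492404781141197 126663739519796
    79228162514264351667292785869 14073748835533 79228162514264478331032305664 140737488355328
    :=
  okZB (s2 (s0 (s0 (s0 lf lf) lf) (s0 lf (s2 lf lf))) (s0 (s0 (s0 lf lf) lf) (s2 (s0 lf lf) (s0
    lf lf))))
    ⟨79228162514264492404781141197, 126663739519796, 79228162514264351667292785869,
    14073748835533, 79228162514264478331032305664, 140737488355328⟩ (by decide +kernel)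

theorem ZC_0 : Hd QZC 79228162514264351667292785869 14073748835533 79228162514264482553156956324
    116812115334923 79228162514264478331032305664 140737488355328 :=
  okZC (s2 (s1 (s1 lf lf) (s2 (s1 (s1 lf lf) (s1 lf (s1 lf lf))) (s1 (s1 lf lf) (s1 lf (s1 lf
    lf))))) (s1 (s1 lf lf) (s2 (s1 (s1 lf lf) (s1 lf (s1 lf lf))) (s1 (s1 lf lf) (s1 lf (s1 lf
    (s2 lf (s1 lf lf))))))))
    ⟨79228162514264351667292785869, 14073748835533, 79228162514264482553156956324,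
    116812115334923, 79228162514264478331032305664, 140737488355328⟩ (by decide +kernel)

theorem ZD_0 : Hd QZD 79228162514264429072911381299 63331869759898 79228162514264424147099288862
    58406057667462 79228162514264407962288128000 70368744177664 :=
  okZD (s2 (s0 (s1 (s0 (s1 lf lf) (s1 lf lf)) (s0 (s0 lf lf) (s1 lf lf))) (s1 (s1 lf lf) (s0 (s1
    lf lf) (s1 lf lf)))) (s0 (s1 (s0 (s1 lf lf) (s1 lf lf)) (s0 (s0 lf lf) (s1 lf lf))) (s1 (s1
    lf lf) (s0 (s1 lf lf) (s1 lf lf)))))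
    ⟨79228162514264429072911381299, 63331869759898, 79228162514264424147099288862,
    58406057667462, 79228162514264407962288128000, 70368744177664⟩ (by decide +kernel)

theorem ZD_1 : Hd QZD 79228162514264429072911381299 63331869759898 79228162514264540959214623786
    58406057667462 79228162514264372777916039168 35184372088832 :=
  okZD (s0 (s1 (s0 (s1 lf (s0 lf lf)) (s1 lf lf)) (s0 (s1 (s0 lf lf) (s2 (s1 (s0 lf lf) (s0 lf
    lf)) (s1 (s0 lf lf) (s0 lf lf)))) (s1 (s2 (s1 lf lf) (s1 lf lf)) (s2 (s1 lf (s0 lf lf)) (s1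
    lf (s0 lf lf)))))) (s1 (s2 (s0 (s1 lf lf) (s1 lf lf)) (s0 (s1 lf lf) (s1 lf lf))) (s2 (s0
    (s1 (s1 lf lf) (s1 lf (s0 lf lf))) (s1 (s1 lf lf) (s1 lf (s1 lf lf)))) (s0 (s1 (s1 lf lf)
    (s1 lf (s0 lf lf))) (s1 (s1 lf lf) (s1 lf (s1 lf lf)))))))
    ⟨79228162514264429072911381299, 63331869759898, 79228162514264540959214623786,
    58406057667462, 79228162514264372777916039168, 35184372088832⟩ (by decide +kernel)

theorem ZD_2 : Hd QZD 79228162514264429072911381299 63331869759898 79228162514264540959214623786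
    58406057667462 79228162514264443146660216832 35184372088832 :=
  okZD (s0 (s1 (s0 (s1 lf (s0 lf lf)) (s1 lf lf)) (s2 (s0 (s1 (s0 lf lf) (s1 (s0 lf lf) (s0 lf
    lf))) (s1 (s1 lf lf) (s1 lf (s0 lf lf)))) (s0 (s1 (s0 lf lf) (s1 (s0 lf lf) (s0 lf lf))) (s1
    (s1 lf lf) (s1 lf (s0 lf lf)))))) (s1 (s2 (s0 (s1 lf lf) (s1 lf lf)) (s0 (s1 lf lf) (s1 lf
    lf))) (s2 (s0 (s1 (s1 lf lf) (s1 lf (s0 lf lf))) (s1 (s1 lf lf) (s1 lf (s1 lf lf)))) (s0 (s1
    (s1 lf lf) (s1 lf (s0 lf lf))) (s1 (s1 lf lf) (s1 lf (s1 lf lf)))))))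
    ⟨79228162514264429072911381299, 63331869759898, 79228162514264540959214623786,
    58406057667462, 79228162514264443146660216832, 35184372088832⟩ (by decide +kernel)

end H41FT
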