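import Pool.Agent.H41.FT.Claims

/-! Branch and bound data, generated. -/

set_option maxRecDepth 100000

namespace H41FT

open Tr

theorem ZD_3 : Hd QZD 79228162514264555736650901095 63331869759898 79228162514264424147099288862
    58406057667462 79228162514264407962288128000 70368744177664 :=
  okZD (s2 (s0 (s1 (s1 lf lf) (s2 (s1 lf lf) (s1 lf lf))) (s1 (s1 lf lf) (s2 (s0 (s1 lf lf) (s1
    lf lf)) (s0 (s1 lf lf) (s1 lf lf))))) (s0 (s1 (s1 lf lf) (s2 (s1 lf lf) (s1 lf lf))) (s1 (s1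
    lf lf) (s2 (s0 (s1 lf lf) (s1 lf lf)) (s0 (s1 lf lf) (s1 lf lf))))))
    ⟨79228162514264555736650901095, 63331869759898, 79228162514264424147099288862,
    58406057667462, 79228162514264407962288128000, 70368744177664⟩ (by decide +kernel)

theorem ZD_4 : Hd QZD 79228162514264555736650901095 63331869759898 79228162514264540959214623786
    58406057667462 79228162514264372777916039168 35184372088832 :=
  okZD (s0 (s1 (s2 (s1 (s0 lf lf) (s0 lf lf)) (s0 (s1 lf lf) (s1 lf (s1 lf lf)))) (s2 (s0 (s1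
    (s1 lf lf) (s1 lf (s1 lf lf))) (s1 (s1 lf lf) (s1 lf (s0 lf lf)))) (s0 (s1 (s1 lf lf) (s1 lf
    (s1 lf lf))) (s1 (s1 lf lf) (s1 (s0 lf lf) (s0 lf lf)))))) (s1 (s2 (s0 (s1 lf (s1 lf lf))
    (s1 (s1 lf lf) (s1 lf lf))) (s0 (s1 lf (s1 lf lf)) (s1 (s1 lf lf) (s1 lf lf)))) (s2 (s0 (s1
    (s1 lf lf) (s1 (s0 lf lf) (s0 lf (s1 lf lf)))) (s1 (s1 lf (s0 lf lf)) (s1 (s0 lf (s1 lf lf))
    (s0 (s1 lf lf) (s2 (s1 lf (s0 lf lf)) (s1 lf (s0 lf lf))))))) (s0 (s1 (s1 lf lf) (s1 (s0 lf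
    lf) (s0 lf (s1 lf lf)))) (s1 (s1 lf (s0 lf lf)) (s1 (s0 lf (s1 lf lf)) (s0 (s1 lf lf) (s2
    (s1 lf (s0 lf lf)) (s1 lf (s0 lf lf))))))))))
    ⟨79228162514264555736650901095, 63331869759898, 79228162514264540959214623786,
    58406057667462, 79228162514264372777916039168, 35184372088832⟩ (by decide +kernel)

theorem ZD_5 : Hd QZD 79228162514264555736650901095 63331869759898 79228162514264540959214623786
    58406057667462 79228162514264443146660216832 35184372088832 :=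
  okZD (s0 (s1 (s2 (s0 (s1 lf lf) (s1 lf (s1 lf lf))) (s0 (s1 lf lf) (s1 lf (s1 lf lf)))) (s2
    (s0 (s1 (s1 lf lf) (s1 lf (s1 lf lf))) (s1 (s1 lf lf) (s1 (s0 lf lf) (s0 lf lf)))) (s0 (s1
    (s1 lf lf) (s1 lf (s1 lf lf))) (s1 (s1 lf lf) (s1 (s0 lf lf) (s0 lf lf)))))) (s1 (s2 (s0 (s1
    lf (s1 lf lf)) (s1 (s1 lf lf) (s1 lf lf))) (s0 (s1 lf (s1 lf lf)) (s1 (s1 lf lf) (s1 lf
    lf)))) (s2 (s0 (s1 (s1 lf lf) (s1 (s0 lf lf) (s0 (s1 lf lf) (s1 lf lf)))) (s1 (s1 (s0 lf lf)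
    (s0 lf lf)) (s1 (s0 lf (s1 lf lf)) (s0 (s1 lf lf) (s2 (s1 lf (s0 lf lf)) (s1 lf (s0 lf
    lf))))))) (s0 (s1 (s1 lf (s0 lf lf)) (s1 (s0 lf lf) (s0 (s1 lf lf) (s1 lf lf)))) (s1 (s1 (s0
    lf lf) (s0 lf lf)) (s0 (s1 (s1 lf lf) (s1 lf lf)) (s1 (s2 (s1 lf lf) (s1 lf lf)) (s2 (s1 lf
    (s0 lf lf)) (s1 lf (s0 lf lf))))))))))
    ⟨79228162514264555736650901095, 63331869759898, 79228162514264540959214623786,
    58406057667462, 79228162514264443146660216832, 35184372088832⟩ (by decide +kernel)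

theorem ZD_6 : Hd QZD 79228162514264429072911381299 63331869759898 79228162514264424147099288862
    58406057667462 79228162514264548699776483328 70368744177664 :=
  okZD (s2 (s0 (s1 (s0 (s1 lf lf) (s1 lf lf)) (s0 (s0 lf lf) (s1 lf lf))) (s1 (s1 lf lf) (s0 (s1
    lf lf) (s1 lf lf)))) (s0 (s1 (s0 (s1 lf lf) (s1 lf lf)) (s0 (s0 lf lf) (s1 lf lf))) (s1 (s1
    lf lf) (s0 (s1 lf lf) (s1 lf lf)))))
    ⟨79228162514264429072911381299, 63331869759898, 79228162514264424147099288862,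
    58406057667462, 79228162514264548699776483328, 70368744177664⟩ (by decide +kernel)

theorem ZD_7 : Hd QZD 79228162514264429072911381299 63331869759898 79228162514264540959214623786
    58406057667462 79228162514264513515404394496 35184372088832 :=
  okZD (s0 (s1 (s0 (s1 lf (s0 lf lf)) (s1 lf lf)) (s2 (s0 (s1 (s0 lf lf) (s1 (s0 lf lf) (s0 lf
    lf))) (s1 (s1 lf lf) (s1 lf (s0 lf lf)))) (s0 (s1 (s0 lf lf) (s1 (s0 lf lf) (s0 lf lf))) (s1
    (s1 lf lf) (s1 (s0 lf lf) (s0 lf lf)))))) (s1 (s2 (s0 (s1 lf lf) (s1 lf lf)) (s0 (s1 lf lf)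
    (s1 lf lf))) (s2 (s0 (s1 (s1 lf lf) (s1 lf (s0 lf lf))) (s1 (s1 lf lf) (s1 lf (s1 lf lf))))
    (s0 (s1 (s1 lf lf) (s1 lf (s0 lf lf))) (s1 (s1 lf lf) (s1 lf (s1 lf lf)))))))
    ⟨79228162514264429072911381299, 63331869759898, 79228162514264540959214623786,
    58406057667462, 79228162514264513515404394496, 35184372088832⟩ (by decide +kernel)

theorem ZD_8 : Hd QZD 79228162514264429072911381299 63331869759898 79228162514264540959214623786
    58406057667462 79228162514264583884148572160 35184372088832 :=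
  okZD (s0 (s1 (s0 (s1 lf (s0 lf lf)) (s1 lf lf)) (s2 (s0 (s1 (s0 lf lf) (s1 (s0 lf lf) (s0 lf
    lf))) (s1 (s1 lf lf) (s1 (s0 lf lf) (s0 lf lf)))) (s0 (s1 (s0 lf lf) (s1 (s0 lf lf) (s0 lf
    lf))) (s1 (s1 lf lf) (s1 (s0 lf lf) (s0 lf lf)))))) (s1 (s2 (s0 (s1 lf lf) (s1 lf lf)) (s0
    (s1 lf lf) (s1 lf lf))) (s2 (s0 (s1 (s1 lf lf) (s1 lf (s0 lf lf))) (s1 (s1 lf lf) (s1 lf (s1
    lf lf)))) (s0 (s1 (s1 lf lf) (s1 lf (s0 lf lf))) (s1 (s1 lf lf) (s1 lf (s2 (s0 lf lf) (s0 lf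
    lf))))))))
    ⟨79228162514264429072911381299, 63331869759898, 79228162514264540959214623786,
    58406057667462, 79228162514264583884148572160, 35184372088832⟩ (by decide +kernel)

theorem ZD_9 : Hd QZD 79228162514264555736650901095 63331869759898 79228162514264424147099288862
    58406057667462 79228162514264548699776483328 70368744177664 :=
  okZD (s2 (s0 (s1 (s1 lf lf) (s2 (s1 lf lf) (s1 lf (s0 lf lf)))) (s1 (s1 lf lf) (s2 (s0 (s1 lf
    lf) (s1 lf lf)) (s0 (s1 lf lf) (s1 lf lf))))) (s0 (s1 (s1 lf lf) (s2 (s1 lf (s0 lf lf)) (s1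
    lf (s0 lf lf)))) (s1 (s1 lf (s0 lf lf)) (s2 (s0 (s1 lf lf) (s1 lf (s1 lf lf))) (s0 (s1 lf
    lf) (s1 lf (s0 lf lf)))))))
    ⟨79228162514264555736650901095, 63331869759898, 79228162514264424147099288862,
    58406057667462, 79228162514264548699776483328, 70368744177664⟩ (by decide +kernel)

theorem ZD_10 : Hd QZD 79228162514264524070716021146 31665934879949
    79228162514264540959214623786 58406057667462 79228162514264513515404394496 35184372088832 :=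
  okZD (s1 (s2 (s0 (s1 lf lf) (s1 lf (s1 lf lf))) (s0 (s1 lf lf) (s1 lf (s1 lf lf)))) (s2 (s0
    (s1 (s1 lf lf) (s1 lf (s1 lf lf))) (s1 (s1 lf lf) (s1 (s0 lf lf) (s0 lf lf)))) (s0 (s1 (s1
    lf lf) (s1 lf (s2 (s0 lf lf) (s0 lf lf)))) (s1 (s1 lf lf) (s1 (s0 lf lf) (s0 lf lf))))))
    ⟨79228162514264524070716021146, 31665934879949, 79228162514264540959214623786,
    58406057667462, 79228162514264513515404394496, 35184372088832⟩ (by decide +kernel)

end H41FT
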