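import Pool.Agent.H41.FT.Claims

/-! Branch and bound data, generated. -/

set_option maxRecDepth 100000

namespace H41FT

open Tr

theorem ZD_11 : Hd QZD 79228162514264587402585781044 31665934879949
    79228162514264540959214623786 58406057667462 79228162514264513515404394496 35184372088832 :=
  okZD (s1 (s2 (s0 (s1 lf (s1 lf lf)) (s1 (s1 lf lf) (s1 lf lf))) (s0 (s1 lf (s1 lf lf)) (s1 (s1
    lf lf) (s1 lf lf)))) (s2 (s0 (s1 (s1 lf (s0 lf lf)) (s1 (s0 lf lf) (s0 (s1 lf lf) (s1 lf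
    lf)))) (s1 (s1 (s0 lf lf) (s0 lf (s1 lf lf))) (s0 (s1 (s1 lf lf) (s2 (s1 lf lf) (s1 lf lf)))
    (s1 (s2 (s1 lf lf) (s1 lf lf)) (s2 (s1 lf (s0 lf lf)) (s1 lf (s0 lf lf))))))) (s0 (s1 (s1 lf
    (s0 lf lf)) (s1 (s0 lf lf) (s0 (s1 lf lf) (s1 lf lf)))) (s1 (s0 (s1 lf lf) (s1 lf (s2 lf
    lf))) (s0 (s1 (s1 lf lf) (s2 (s1 lf lf) (s1 lf lf))) (s1 (s2 (s1 lf lf) (s1 lf lf)) (s2 (s1
    (s0 lf lf) (s0 lf lf)) (s0 (s1 lf lf) (s1 lf lf)))))))))
    ⟨79228162514264587402585781044, 31665934879949, 79228162514264540959214623786,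
    58406057667462, 79228162514264513515404394496, 35184372088832⟩ (by decide +kernel)

theorem ZD_12 : Hd QZD 79228162514264524070716021146 31665934879949
    79228162514264540959214623786 58406057667462 79228162514264583884148572160 35184372088832 :=
  okZD (s1 (s2 (s0 (s1 lf lf) (s1 lf (s1 lf lf))) (s0 (s1 lf lf) (s1 lf (s1 lf lf)))) (s2 (s0
    (s1 (s1 lf lf) (s1 lf (s2 (s0 lf lf) (s0 lf lf)))) (s1 (s1 lf lf) (s1 (s0 lf lf) (s0 lf
    lf)))) (s0 (s1 (s1 lf lf) (s1 lf (s2 (s0 lf lf) (s0 lf lf)))) (s1 (s1 lf lf) (s1 (s0 lf lf)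
    (s0 lf lf))))))
    ⟨79228162514264524070716021146, 31665934879949, 79228162514264540959214623786,
    58406057667462, 79228162514264583884148572160, 35184372088832⟩ (by decide +kernel)

theorem ZD_13 : Hd QZD 79228162514264587402585781044 31665934879949
    79228162514264511756185790055 29203028833731 79228162514264583884148572160 35184372088832 :=
  okZD (s2 (s0 (s1 (s1 lf lf) (s1 lf lf)) (s1 (s0 lf (s1 lf lf)) (s0 (s1 lf lf) (s1 lf lf))))
    (s0 (s1 (s1 lf lf) (s1 lf lf)) (s1 (s0 lf (s1 lf lf)) (s0 (s1 lf lf) (s1 lf lf)))))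
    ⟨79228162514264587402585781044, 31665934879949, 79228162514264511756185790055,
    29203028833731, 79228162514264583884148572160, 35184372088832⟩ (by decide +kernel)

theorem ZD_14 : Hd QZD 79228162514264587402585781044 31665934879949
    79228162514264570162243457517 29203028833731 79228162514264583884148572160 35184372088832 :=
  okZD (s2 (s0 (s1 (s1 lf (s0 lf lf)) (s1 (s0 lf lf) (s0 (s1 lf lf) (s1 lf lf)))) (s1 (s0 (s1 lf
    lf) (s1 lf (s2 (s0 lf lf) (s0 lf lf)))) (s0 (s1 (s2 (s1 lf lf) (s1 lf lf)) (s2 (s1 lf lf)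
    (s1 lf lf))) (s1 (s2 (s0 lf (s1 lf lf)) (s0 lf (s1 lf lf))) (s2 (s0 (s1 lf lf) (s1 lf (s0 lf
    lf))) (s0 (s1 lf lf) (s1 lf (s0 lf lf)))))))) (s0 (s1 (s1 lf (s0 lf lf)) (s1 (s0 lf lf) (s0
    (s1 lf lf) (s1 lf lf)))) (s1 (s0 (s1 lf lf) (s1 lf (s2 (s0 lf lf) (s0 lf lf)))) (s0 (s1 (s2
    (s1 lf lf) (s1 lf lf)) (s2 (s1 lf lf) (s1 lf lf))) (s2 (s1 (s0 lf (s1 lf lf)) (s0 (s1 lf lf)
    (s1 lf (s0 lf lf)))) (s1 (s0 lf (s1 lf lf)) (s0 (s1 lf lf) (s1 lf (s0 lf lf)))))))))
    ⟨79228162514264587402585781044, 31665934879949, 79228162514264570162243457517,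
    29203028833731, 79228162514264583884148572160, 35184372088832⟩ (by decide +kernel)

theorem ZE_0 : Hd QZE 79228162514264351667292785869 14073748835533 79228162514264609216896476119
    9851624184873 79228162514264478331032305664 140737488355328 :=
  okZE (s2 (s2 lf lf) (s2 lf (s2 lf lf)))
    ⟨79228162514264351667292785869, 14073748835533, 79228162514264609216896476119,
    9851624184873, 79228162514264478331032305664, 140737488355328⟩ (by decide +kernel)

theorem ZF_0 : Hd QZF 79228162514264421402718265933 55661676644533 79228162514264609216896476119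
    9851624184873 79228162514264407962288128000 70368744177664 :=
  okZF (s2 (s0 (s2 (s0 (s0 lf lf) (s0 lf lf)) (s0 (s0 lf lf) (s0 lf lf))) (s2 (s0 lf lf) (s0 (s0
    lf lf) (s2 lf lf)))) (s0 (s2 (s0 (s0 lf lf) (s0 lf lf)) (s0 (s0 lf lf) (s0 lf lf))) (s2 (s0
    (s0 lf lf) (s2 lf (s0 lf lf))) (s0 (s0 lf lf) (s2 (s0 lf lf) (s0 lf lf))))))
    ⟨79228162514264421402718265933, 55661676644533, 79228162514264609216896476119,
    9851624184873, 79228162514264407962288128000, 70368744177664⟩ (by decide +kernel)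

theorem ZF_1 : Hd QZF 79228162514264504895233232732 27830838322267 79228162514264609216896476119
    9851624184873 79228162514264372777916039168 35184372088832 :=
  okZF (s2 (s0 (s2 lf (s0 lf lf)) (s2 (s0 lf lf) (s0 lf lf))) (s0 (s2 (s0 lf lf) (s0 lf lf)) (s2
    (s0 lf lf) (s0 lf lf))))
    ⟨79228162514264504895233232732, 27830838322267, 79228162514264609216896476119,
    9851624184873, 79228162514264372777916039168, 35184372088832⟩ (by decide +kernel)

theorem ZF_2 : Hd QZF 79228162514264560556909877266 27830838322267 79228162514264609216896476119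
    9851624184873 79228162514264372777916039168 35184372088832 :=
  okZF (s2 (s0 (s2 (s0 lf lf) (s0 lf lf)) (s2 (s0 (s1 lf lf) (s1 lf lf)) (s0 (s1 lf lf) (s1 lf
    lf)))) (s0 (s2 (s0 lf lf) (s0 lf lf)) (s2 (s0 (s1 lf lf) (s1 lf lf)) (s0 (s1 lf lf) (s1 lf
    lf)))))
    ⟨79228162514264560556909877266, 27830838322267, 79228162514264609216896476119,
    9851624184873, 79228162514264372777916039168, 35184372088832⟩ (by decide +kernel)

end H41FT
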