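import Pool.Agent.H41.FT.Claims

/-! Branch and bound data, generated. -/

set_option maxRecDepth 100000

namespace H41FT

open Tr

theorem OA_0 : Hd QOA 79228162514264354482042552975 16888498602640 79228162514264354482042552975
    16888498602640 79228162514264372777916039168 35184372088832 :=
  okOA (s2 (s1 (s0 lf lf) (s0 lf (s1 lf (sk 0)))) (s1 (s0 lf lf) (s0 lf (s1 lf (sk 0)))))
    ⟨79228162514264354482042552975, 16888498602640, 79228162514264354482042552975,
    16888498602640, 79228162514264372777916039168, 35184372088832⟩ (by decide +kernel)

theorem OA_1 : Hd QOA 79228162514264354482042552975 16888498602640 79228162514264354482042552975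
    16888498602640 79228162514264443146660216832 35184372088832 :=
  okOA (s2 (s1 (s0 lf lf) (s0 lf (s1 lf (sk 0)))) (s1 (s0 lf lf) (s0 lf lf)))
    ⟨79228162514264354482042552975, 16888498602640, 79228162514264354482042552975,
    16888498602640, 79228162514264443146660216832, 35184372088832⟩ (by decide +kernel)

theorem OA_2 : Hd QOA 79228162514264354482042552975 16888498602640 79228162514264354482042552975
    16888498602640 79228162514264513515404394496 35184372088832 :=
  okOA (s2 (s1 (s0 lf lf) (s0 lf lf)) (s0 (s1 lf lf) (s1 lf lf)))
    ⟨79228162514264354482042552975, 16888498602640, 79228162514264354482042552975,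
    16888498602640, 79228162514264513515404394496, 35184372088832⟩ (by decide +kernel)

theorem OA_3 : Hd QOA 79228162514264354482042552975 16888498602640 79228162514264354482042552975
    16888498602640 79228162514264583884148572160 35184372088832 :=
  okOA (s2 (s0 (s1 lf lf) (s1 lf lf)) (s0 (s1 lf lf) (s1 lf (s0 lf (sk 0)))))
    ⟨79228162514264354482042552975, 16888498602640, 79228162514264354482042552975,
    16888498602640, 79228162514264583884148572160, 35184372088832⟩ (by decide +kernel)

theorem OB_0 : Hd QOB 79228162514264354482042552975 16888498602640 79228162514264354482042552975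
    16888498602640 79228162514264372777916039168 35184372088832 :=
  okOB (s2 (s1 (s0 lf lf) (s0 lf (s2 lf lf))) (s1 (s0 lf lf) (s0 lf (s2 lf lf))))
    ⟨79228162514264354482042552975, 16888498602640, 79228162514264354482042552975,
    16888498602640, 79228162514264372777916039168, 35184372088832⟩ (by decide +kernel)

theorem OB_1 : Hd QOB 79228162514264354482042552975 16888498602640 79228162514264354482042552975
    16888498602640 79228162514264443146660216832 35184372088832 :=
  okOB (s2 (s1 (s0 lf lf) (s0 lf (s2 lf lf))) (s1 (s0 lf lf) (s0 lf (s2 lf lf))))
    ⟨79228162514264354482042552975, 16888498602640, 79228162514264354482042552975,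
    16888498602640, 79228162514264443146660216832, 35184372088832⟩ (by decide +kernel)

end H41FT
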