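import Pool.Agent.H41.FT.Claims

/-! Branch and bound data, generated. -/

set_option maxRecDepth 100000

namespace H41FT

open Tr

theorem OB_2 : Hd QOB 79228162514264354482042552975 16888498602640 79228162514264354482042552975
    16888498602640 79228162514264495923218350080 17592186044416 :=
  okOB (s1 (s0 lf lf) (s0 lf (s2 lf lf)))
    ⟨79228162514264354482042552975, 16888498602640, 79228162514264354482042552975,
    16888498602640, 79228162514264495923218350080, 17592186044416⟩ (by decide +kernel)

theorem OB_3 : Hd QOB 79228162514264354482042552975 16888498602640 79228162514264354482042552975
    16888498602640 79228162514264531107590438912 17592186044416 :=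
  okOB (s1 (s0 (s2 lf lf) (s2 lf lf)) (s0 (s2 lf lf) (s2 (s1 lf (sk 0)) (s1 lf (sk 0)))))
    ⟨79228162514264354482042552975, 16888498602640, 79228162514264354482042552975,
    16888498602640, 79228162514264531107590438912, 17592186044416⟩ (by decide +kernel)

theorem OB_4 : Hd QOB 79228162514264354482042552975 16888498602640 79228162514264346037793251655
    8444249301320 79228162514264566291962527744 17592186044416 :=
  okOB (s0 (s2 (s1 lf lf) (s1 lf lf)) (s2 (s1 lf lf) (s1 lf lf)))
    ⟨79228162514264354482042552975, 16888498602640, 79228162514264346037793251655,
    8444249301320, 79228162514264566291962527744, 17592186044416⟩ (by decide +kernel)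

theorem OB_5 : Hd QOB 79228162514264354482042552975 16888498602640 79228162514264362926291854295
    8444249301320 79228162514264566291962527744 17592186044416 :=
  okOB (s0 (s2 (s1 lf lf) (s1 lf lf)) (s2 (s1 lf (sk 0)) (s1 lf (sk 0))))
    ⟨79228162514264354482042552975, 16888498602640, 79228162514264362926291854295,
    8444249301320, 79228162514264566291962527744, 17592186044416⟩ (by decide +kernel)

theorem OB_6 : Hd QOB 79228162514264354482042552975 16888498602640 79228162514264346037793251655
    8444249301320 79228162514264601476334616576 17592186044416 :=
  okOB (s0 (s2 (s1 lf lf) (s1 lf lf)) (s2 (s1 lf lf) (s1 lf lf)))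
    ⟨79228162514264354482042552975, 16888498602640, 79228162514264346037793251655,
    8444249301320, 79228162514264601476334616576, 17592186044416⟩ (by decide +kernel)

theorem OB_7 : Hd QOB 79228162514264354482042552975 16888498602640 79228162514264362926291854295
    8444249301320 79228162514264601476334616576 17592186044416 :=
  okOB (s0 (s2 (s1 lf lf) (s1 lf lf)) (s2 (s1 lf (sk 0)) (s1 lf (sk 0))))
    ⟨79228162514264354482042552975, 16888498602640, 79228162514264362926291854295,
    8444249301320, 79228162514264601476334616576, 17592186044416⟩ (by decide +kernel)

theorem QA_0 : Hd QQA 79228162514264344630418368102 7036874417767 79228162514264597957897407692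
    7036874417767 79228162514264355185729994752 17592186044416 :=
  okQA lf
    ⟨79228162514264344630418368102, 7036874417767, 79228162514264597957897407692, 7036874417767,
    79228162514264355185729994752, 17592186044416⟩ (by decide +kernel)

theorem QA_1 : Hd QQA 79228162514264344630418368102 7036874417767 79228162514264612031646243226
    7036874417767 79228162514264355185729994752 17592186044416 :=
  okQA (s0 lf (s1 lf lf))
    ⟨79228162514264344630418368102, 7036874417767, 79228162514264612031646243226, 7036874417767,
    79228162514264355185729994752, 17592186044416⟩ (by decide +kernel)

end H41FT
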