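import Pool.Agent.H41.FT.Claims

/-! Branch and bound data, generated. -/

set_option maxRecDepth 100000

namespace H41FT

open Tr

theorem QA_2 : Hd QQA 79228162514264344630418368102 7036874417767 79228162514264597957897407692
    7036874417767 79228162514264390370102083584 17592186044416 :=
  okQA lf
    ⟨79228162514264344630418368102, 7036874417767, 79228162514264597957897407692, 7036874417767,
    79228162514264390370102083584, 17592186044416⟩ (by decide +kernel)

theorem QA_3 : Hd QQA 79228162514264344630418368102 7036874417767 79228162514264612031646243226
    7036874417767 79228162514264390370102083584 17592186044416 :=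
  okQA (s2 (s0 lf lf) lf)
    ⟨79228162514264344630418368102, 7036874417767, 79228162514264612031646243226, 7036874417767,
    79228162514264390370102083584, 17592186044416⟩ (by decide +kernel)

theorem QA_4 : Hd QQA 79228162514264344630418368102 7036874417767 79228162514264604994771825459
    14073748835533 79228162514264425554474172416 17592186044416 :=
  okQA (s2 (s1 lf lf) lf)
    ⟨79228162514264344630418368102, 7036874417767, 79228162514264604994771825459,
    14073748835533, 79228162514264425554474172416, 17592186044416⟩ (by decide +kernel)

theorem QA_5 : Hd QQA 79228162514264344630418368102 7036874417767 79228162514264604994771825459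
    14073748835533 79228162514264460738846261248 17592186044416 :=
  okQA (s2 lf lf)
    ⟨79228162514264344630418368102, 7036874417767, 79228162514264604994771825459,
    14073748835533, 79228162514264460738846261248, 17592186044416⟩ (by decide +kernel)

theorem QA_6 : Hd QQA 79228162514264344630418368102 7036874417767 79228162514264604994771825459
    14073748835533 79228162514264513515404394496 35184372088832 :=
  okQA (s2 lf lf)
    ⟨79228162514264344630418368102, 7036874417767, 79228162514264604994771825459,
    14073748835533, 79228162514264513515404394496, 35184372088832⟩ (by decide +kernel)

theorem QA_7 : Hd QQA 79228162514264344630418368102 7036874417767 79228162514264604994771825459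
    14073748835533 79228162514264583884148572160 35184372088832 :=
  okQA (s2 lf lf)
    ⟨79228162514264344630418368102, 7036874417767, 79228162514264604994771825459,
    14073748835533, 79228162514264583884148572160, 35184372088832⟩ (by decide +kernel)

theorem QB_0 : Hd QQB 79228162514264419221287196426 67553994410558 79228162514264604994771825459
    14073748835533 79228162514264372777916039168 35184372088832 :=
  okQB (s0 (s2 (s0 (s0 (s1 (s0 lf lf) (s2 (s1 lf (sk 0)) (s1 lf (sk 0)))) (sk 0)) (sk 0)) (s0
    (s2 (s0 (s1 (s0 lf lf) (s0 lf (sk 0))) (sk 0)) (s0 (s1 (s0 lf lf) (s0 lf (sk 0))) (sk 0)))
    (sk 0))) (sk 0))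
    ⟨79228162514264419221287196426, 67553994410558, 79228162514264604994771825459,
    14073748835533, 79228162514264372777916039168, 35184372088832⟩ (by decide +kernel)

end H41FT
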