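import Pool.Agent.H41.FT.Claims

/-! Branch and bound data, generated. -/

set_option maxRecDepth 100000

namespace H41FT

open Tr

theorem QC_10 : Hd QQC 79228162514264441376886300764 15132798435407
    79228162514264509996967185613 16184811160863 79228162514264425554474172416 17592186044416 :=
  okQC (s2 (s1 (s0 (sk 2) lf) (s0 lf lf)) (s0 (s1 (sk 2) lf) (s1 lf lf)))
    ⟨79228162514264441376886300764, 15132798435407, 79228162514264509996967185613,
    16184811160863, 79228162514264425554474172416, 17592186044416⟩ (by decide +kernel)

theorem QC_11 : Hd QQC 79228162514264471642483171578 15132798435407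
    79228162514264509996967185613 16184811160863 79228162514264425554474172416 17592186044416 :=
  okQC (s2 (s1 (s0 lf lf) (s0 lf (sk 0))) (s1 (s0 lf lf) (s0 lf (sk 0))))
    ⟨79228162514264471642483171578, 15132798435407, 79228162514264509996967185613,
    16184811160863, 79228162514264425554474172416, 17592186044416⟩ (by decide +kernel)

theorem QC_12 : Hd QQC 79228162514264456509684736171 30265596870814
    79228162514264477627344863887 16184811160863 79228162514264460738846261248 17592186044416 :=
  okQC (s0 (sk 2) (s2 (s1 (s0 (sk 2) lf) (s0 lf lf)) (s1 (s0 (sk 2) lf) (s0 lf lf))))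
    ⟨79228162514264456509684736171, 30265596870814, 79228162514264477627344863887,
    16184811160863, 79228162514264460738846261248, 17592186044416⟩ (by decide +kernel)

theorem QC_13 : Hd QQC 79228162514264441376886300764 15132798435407
    79228162514264509996967185613 16184811160863 79228162514264460738846261248 17592186044416 :=
  okQC (s2 (s1 (s0 (sk 2) lf) (s0 lf lf)) (s1 (s0 (sk 2) lf) (s0 lf lf)))
    ⟨79228162514264441376886300764, 15132798435407, 79228162514264509996967185613,
    16184811160863, 79228162514264460738846261248, 17592186044416⟩ (by decide +kernel)

theorem QC_14 : Hd QQC 79228162514264471642483171578 15132798435407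
    79228162514264509996967185613 16184811160863 79228162514264460738846261248 17592186044416 :=
  okQC (s2 (s1 (s0 lf lf) (s0 lf (sk 0))) (s1 (s0 lf lf) (s0 lf lf)))
    ⟨79228162514264471642483171578, 15132798435407, 79228162514264509996967185613,
    16184811160863, 79228162514264460738846261248, 17592186044416⟩ (by decide +kernel)

theorem QC_15 : Hd QQC 79228162514264395978490994543 30265596870814
    79228162514264542366589507339 16184811160863 79228162514264425554474172416 17592186044416 :=
  okQC (s0 (sk 2) (s2 (s1 (s0 (sk 2) lf) (s0 lf lf)) (s0 (s1 (sk 2) lf) (s1 lf lf))))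
    ⟨79228162514264395978490994543, 30265596870814, 79228162514264542366589507339,
    16184811160863, 79228162514264425554474172416, 17592186044416⟩ (by decide +kernel)

theorem QC_16 : Hd QQC 79228162514264395978490994543 30265596870814
    79228162514264574736211829065 16184811160863 79228162514264425554474172416 17592186044416 :=
  okQC (s0 (s2 (s0 (s1 (sk 2) lf) (s1 lf lf)) (s0 (s1 (sk 2) lf) (s1 lf lf))) (s2 (s1 (s0 lf (sk
    0)) (sk 0)) (s0 (s1 lf (sk 0)) (sk 0))))
    ⟨79228162514264395978490994543, 30265596870814, 79228162514264574736211829065,
    16184811160863, 79228162514264425554474172416, 17592186044416⟩ (by decide +kernel)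

theorem QC_17 : Hd QQC 79228162514264395978490994543 30265596870814
    79228162514264542366589507339 16184811160863 79228162514264460738846261248 17592186044416 :=
  okQC (s0 (sk 2) (s2 (s0 (s1 (sk 2) lf) (s1 lf lf)) (s0 lf (s1 lf lf))))
    ⟨79228162514264395978490994543, 30265596870814, 79228162514264542366589507339,
    16184811160863, 79228162514264460738846261248, 17592186044416⟩ (by decide +kernel)

end H41FT
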