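import Pool.Agent.H41.FT.Claims

/-! Branch and bound data, generated. -/

set_option maxRecDepth 100000

namespace H41FT

open Tr

theorem QC_18 : Hd QQC 79228162514264395978490994543 30265596870814
    79228162514264574736211829065 16184811160863 79228162514264460738846261248 17592186044416 :=
  okQC (s0 (s2 (s0 (s1 (sk 2) lf) (s1 lf lf)) (s0 lf (s1 lf lf))) (s2 (s0 (s1 lf (sk 0)) (s1 lf
    (sk 0))) (s0 (s1 lf lf) (s1 lf (sk 0)))))
    ⟨79228162514264395978490994543, 30265596870814, 79228162514264574736211829065,
    16184811160863, 79228162514264460738846261248, 17592186044416⟩ (by decide +kernel)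

theorem QC_19 : Hd QQC 79228162514264456509684736171 30265596870814
    79228162514264558551400668202 32369622321726 79228162514264443146660216832 35184372088832 :=
  okQC (s2 (s1 (s0 (s2 (s1 (s0 lf (sk 0)) (sk 0)) (s1 (s0 lf lf) (s0 lf (sk 0)))) (sk 0)) (sk
    0)) (s1 (s0 (s2 (s1 (s0 lf lf) (s0 lf (sk 0))) (s1 (s0 lf lf) (s0 lf (sk 0)))) (s2 (sk 0)
    (s1 (s0 lf (sk 0)) (sk 0)))) (s0 (sk 0) (sk 0))))
    ⟨79228162514264456509684736171, 30265596870814, 79228162514264558551400668202,
    32369622321726, 79228162514264443146660216832, 35184372088832⟩ (by decide +kernel)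

theorem QC_20 : Hd QQC 79228162514264395978490994543 30265596870814
    79228162514264493812156024750 32369622321726 79228162514264513515404394496 35184372088832 :=
  okQC (sk 2)
    ⟨79228162514264395978490994543, 30265596870814, 79228162514264493812156024750,
    32369622321726, 79228162514264513515404394496, 35184372088832⟩ (by decide +kernel)

theorem QC_21 : Hd QQC 79228162514264456509684736171 30265596870814
    79228162514264477627344863887 16184811160863 79228162514264495923218350080 17592186044416 :=
  okQC (s0 (sk 2) (s2 (s1 (s0 (sk 2) lf) (s0 lf lf)) (s1 (s0 (sk 2) lf) (s0 lf lf))))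
    ⟨79228162514264456509684736171, 30265596870814, 79228162514264477627344863887,
    16184811160863, 79228162514264495923218350080, 17592186044416⟩ (by decide +kernel)

theorem QC_22 : Hd QQC 79228162514264441376886300764 15132798435407
    79228162514264509996967185613 16184811160863 79228162514264495923218350080 17592186044416 :=
  okQC (s2 (s1 (s0 (sk 2) lf) (s0 lf lf)) (s1 (s0 (sk 2) lf) (s0 lf lf)))
    ⟨79228162514264441376886300764, 15132798435407, 79228162514264509996967185613,
    16184811160863, 79228162514264495923218350080, 17592186044416⟩ (by decide +kernel)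

theorem QC_23 : Hd QQC 79228162514264471642483171578 15132798435407
    79228162514264509996967185613 16184811160863 79228162514264495923218350080 17592186044416 :=
  okQC (s2 (s1 (s0 lf lf) (s0 lf lf)) (s1 (s0 lf lf) (s0 lf lf)))
    ⟨79228162514264471642483171578, 15132798435407, 79228162514264509996967185613,
    16184811160863, 79228162514264495923218350080, 17592186044416⟩ (by decide +kernel)

theorem QC_24 : Hd QQC 79228162514264456509684736171 30265596870814
    79228162514264477627344863887 16184811160863 79228162514264531107590438912 17592186044416 :=
  okQC (s0 (sk 2) (s2 (s1 (s0 (sk 2) lf) (s0 lf lf)) (s1 (s0 (sk 2) lf) (s0 lf lf))))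
    ⟨79228162514264456509684736171, 30265596870814, 79228162514264477627344863887,
    16184811160863, 79228162514264531107590438912, 17592186044416⟩ (by decide +kernel)

theorem QC_25 : Hd QQC 79228162514264441376886300764 15132798435407
    79228162514264509996967185613 16184811160863 79228162514264531107590438912 17592186044416 :=
  okQC (s2 (s1 (s0 (sk 2) lf) (s0 lf lf)) (s1 (s0 (sk 2) lf) (s0 lf lf)))
    ⟨79228162514264441376886300764, 15132798435407, 79228162514264509996967185613,
    16184811160863, 79228162514264531107590438912, 17592186044416⟩ (by decide +kernel)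

end H41FT
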