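import Pool.Agent.H41.FT.Claims

/-! Branch and bound data, generated. -/

set_option maxRecDepth 100000

namespace H41FT

open Tr

theorem QC_26 : Hd QQC 79228162514264471642483171578 15132798435407
    79228162514264509996967185613 16184811160863 79228162514264531107590438912 17592186044416 :=
  okQC (s2 (s1 (s0 lf lf) (s0 lf lf)) (s1 (s0 lf lf) (s0 lf lf)))
    ⟨79228162514264471642483171578, 15132798435407, 79228162514264509996967185613,
    16184811160863, 79228162514264531107590438912, 17592186044416⟩ (by decide +kernel)

theorem QC_27 : Hd QQC 79228162514264395978490994543 30265596870814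
    79228162514264542366589507339 16184811160863 79228162514264495923218350080 17592186044416 :=
  okQC (s0 (sk 2) (s2 (s0 lf (s1 lf lf)) (s0 lf lf)))
    ⟨79228162514264395978490994543, 30265596870814, 79228162514264542366589507339,
    16184811160863, 79228162514264495923218350080, 17592186044416⟩ (by decide +kernel)

theorem QC_28 : Hd QQC 79228162514264395978490994543 30265596870814
    79228162514264574736211829065 16184811160863 79228162514264495923218350080 17592186044416 :=
  okQC (s0 (s0 (s2 lf lf) (s2 lf lf)) (s2 (s0 (s1 lf lf) (s1 lf (sk 0))) (s0 lf (s1 lf lf))))
    ⟨79228162514264395978490994543, 30265596870814, 79228162514264574736211829065,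
    16184811160863, 79228162514264495923218350080, 17592186044416⟩ (by decide +kernel)

theorem QC_29 : Hd QQC 79228162514264395978490994543 30265596870814
    79228162514264542366589507339 16184811160863 79228162514264531107590438912 17592186044416 :=
  okQC (s0 (sk 2) (s2 (s0 lf lf) (s1 lf lf)))
    ⟨79228162514264395978490994543, 30265596870814, 79228162514264542366589507339,
    16184811160863, 79228162514264531107590438912, 17592186044416⟩ (by decide +kernel)

theorem QC_30 : Hd QQC 79228162514264395978490994543 30265596870814
    79228162514264574736211829065 16184811160863 79228162514264531107590438912 17592186044416 :=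
  okQC (s0 (s0 (s2 lf lf) (s2 lf lf)) (s2 (s0 lf lf) (s0 lf lf)))
    ⟨79228162514264395978490994543, 30265596870814, 79228162514264574736211829065,
    16184811160863, 79228162514264531107590438912, 17592186044416⟩ (by decide +kernel)

theorem QC_31 : Hd QQC 79228162514264441376886300764 15132798435407
    79228162514264542366589507339 16184811160863 79228162514264495923218350080 17592186044416 :=
  okQC (s2 (s1 (s0 lf lf) (s0 lf lf)) (s1 (s0 lf lf) (s0 lf lf)))
    ⟨79228162514264441376886300764, 15132798435407, 79228162514264542366589507339,
    16184811160863, 79228162514264495923218350080, 17592186044416⟩ (by decide +kernel)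

theorem QC_32 : Hd QQC 79228162514264471642483171578 15132798435407
    79228162514264542366589507339 16184811160863 79228162514264495923218350080 17592186044416 :=
  okQC (s2 (s1 (s0 lf (sk 0)) (sk 0)) (s1 (s0 lf lf) (s0 lf (sk 0))))
    ⟨79228162514264471642483171578, 15132798435407, 79228162514264542366589507339,
    16184811160863, 79228162514264495923218350080, 17592186044416⟩ (by decide +kernel)

theorem QC_33 : Hd QQC 79228162514264456509684736171 30265596870814
    79228162514264574736211829065 16184811160863 79228162514264495923218350080 17592186044416 :=
  okQC (s0 (s2 (s1 (s0 lf (sk 0)) (sk 0)) (s1 (s0 lf (sk 0)) (sk 0))) (sk 0))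
    ⟨79228162514264456509684736171, 30265596870814, 79228162514264574736211829065,
    16184811160863, 79228162514264495923218350080, 17592186044416⟩ (by decide +kernel)

end H41FT
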