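import Pool.Agent.H41.FT.Claims

/-! Branch and bound data, generated. -/

set_option maxRecDepth 100000

namespace H41FT

open Tr

theorem QC_34 : Hd QQC 79228162514264441376886300764 15132798435407
    79228162514264542366589507339 16184811160863 79228162514264531107590438912 17592186044416 :=
  okQC (s2 (s1 (s0 lf lf) (s0 lf lf)) (s1 (s0 lf lf) (s0 lf lf)))
    ⟨79228162514264441376886300764, 15132798435407, 79228162514264542366589507339,
    16184811160863, 79228162514264531107590438912, 17592186044416⟩ (by decide +kernel)

theorem QC_35 : Hd QQC 79228162514264471642483171578 15132798435407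
    79228162514264542366589507339 16184811160863 79228162514264531107590438912 17592186044416 :=
  okQC (s2 (s1 (s0 lf lf) (s0 lf lf)) (s1 (s0 lf lf) (s0 lf lf)))
    ⟨79228162514264471642483171578, 15132798435407, 79228162514264542366589507339,
    16184811160863, 79228162514264531107590438912, 17592186044416⟩ (by decide +kernel)

theorem QC_36 : Hd QQC 79228162514264456509684736171 30265596870814
    79228162514264574736211829065 16184811160863 79228162514264531107590438912 17592186044416 :=
  okQC (s0 (s2 (s1 (s0 lf lf) (s0 lf (sk 0))) (s1 (s0 lf lf) (s0 lf lf))) (s2 (sk 0) (s1 (s0 lf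
    lf) (sk 0))))
    ⟨79228162514264456509684736171, 30265596870814, 79228162514264574736211829065,
    16184811160863, 79228162514264531107590438912, 17592186044416⟩ (by decide +kernel)

theorem QC_37 : Hd QQC 79228162514264395978490994543 30265596870814
    79228162514264493812156024750 32369622321726 79228162514264583884148572160 35184372088832 :=
  okQC (sk 2)
    ⟨79228162514264395978490994543, 30265596870814, 79228162514264493812156024750,
    32369622321726, 79228162514264583884148572160, 35184372088832⟩ (by decide +kernel)

theorem QC_38 : Hd QQC 79228162514264456509684736171 30265596870814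
    79228162514264477627344863887 16184811160863 79228162514264566291962527744 17592186044416 :=
  okQC (s0 (sk 2) (s2 (s1 (s0 (sk 2) lf) (s0 lf lf)) (s1 (s0 (sk 2) lf) (s0 lf lf))))
    ⟨79228162514264456509684736171, 30265596870814, 79228162514264477627344863887,
    16184811160863, 79228162514264566291962527744, 17592186044416⟩ (by decide +kernel)

theorem QC_39 : Hd QQC 79228162514264441376886300764 15132798435407
    79228162514264509996967185613 16184811160863 79228162514264566291962527744 17592186044416 :=
  okQC (s2 (s1 (s0 (sk 2) lf) (s0 lf lf)) (s1 (s0 (sk 2) lf) (s0 lf lf)))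
    ⟨79228162514264441376886300764, 15132798435407, 79228162514264509996967185613,
    16184811160863, 79228162514264566291962527744, 17592186044416⟩ (by decide +kernel)

theorem QC_40 : Hd QQC 79228162514264471642483171578 15132798435407
    79228162514264509996967185613 16184811160863 79228162514264566291962527744 17592186044416 :=
  okQC (s2 (s1 (s0 lf lf) (s0 lf lf)) (s1 (s0 lf lf) (s0 lf lf)))
    ⟨79228162514264471642483171578, 15132798435407, 79228162514264509996967185613,
    16184811160863, 79228162514264566291962527744, 17592186044416⟩ (by decide +kernel)

theorem QC_41 : Hd QQC 79228162514264456509684736171 30265596870814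
    79228162514264477627344863887 16184811160863 79228162514264601476334616576 17592186044416 :=
  okQC (s0 (sk 2) (s2 (s1 (s0 (sk 2) lf) (s0 lf lf)) (s1 (s0 (sk 2) (s2 lf lf)) (s0 lf (s2 lf
    lf)))))
    ⟨79228162514264456509684736171, 30265596870814, 79228162514264477627344863887,
    16184811160863, 79228162514264601476334616576, 17592186044416⟩ (by decide +kernel)

end H41FT
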