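import Pool.Agent.H41.FT.Claims

/-! Branch and bound data, generated. -/

set_option maxRecDepth 100000

namespace H41FT

open Tr

theorem QC_42 : Hd QQC 79228162514264441376886300764 15132798435407
    79228162514264509996967185613 16184811160863 79228162514264601476334616576 17592186044416 :=
  okQC (s2 (s1 (s0 (sk 2) lf) (s0 lf lf)) (s1 (s0 (sk 2) lf) (s0 lf lf)))
    ⟨79228162514264441376886300764, 15132798435407, 79228162514264509996967185613,
    16184811160863, 79228162514264601476334616576, 17592186044416⟩ (by decide +kernel)

theorem QC_43 : Hd QQC 79228162514264471642483171578 15132798435407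
    79228162514264509996967185613 16184811160863 79228162514264601476334616576 17592186044416 :=
  okQC (s2 (s1 (s0 lf lf) (s0 lf lf)) (s1 (s0 lf lf) (s0 lf lf)))
    ⟨79228162514264471642483171578, 15132798435407, 79228162514264509996967185613,
    16184811160863, 79228162514264601476334616576, 17592186044416⟩ (by decide +kernel)

theorem QC_44 : Hd QQC 79228162514264395978490994543 30265596870814
    79228162514264558551400668202 32369622321726 79228162514264566291962527744 17592186044416 :=
  okQC (s1 (s0 (sk 2) (s2 (s1 lf lf) (s1 lf lf))) (s0 (s0 lf (s2 lf lf)) (s2 (s0 lf lf) (s0 lf
    lf))))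
    ⟨79228162514264395978490994543, 30265596870814, 79228162514264558551400668202,
    32369622321726, 79228162514264566291962527744, 17592186044416⟩ (by decide +kernel)

theorem QC_45 : Hd QQC 79228162514264395978490994543 30265596870814
    79228162514264558551400668202 32369622321726 79228162514264601476334616576 17592186044416 :=
  okQC (s1 (s0 (sk 2) (s1 (s2 lf lf) (s0 lf lf))) (s0 (s0 lf lf) (s1 (s0 lf lf) (s0 lf lf))))
    ⟨79228162514264395978490994543, 30265596870814, 79228162514264558551400668202,
    32369622321726, 79228162514264601476334616576, 17592186044416⟩ (by decide +kernel)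

theorem QC_46 : Hd QQC 79228162514264441376886300764 15132798435407
    79228162514264542366589507339 16184811160863 79228162514264566291962527744 17592186044416 :=
  okQC (s1 (s2 lf lf) (s2 lf lf))
    ⟨79228162514264441376886300764, 15132798435407, 79228162514264542366589507339,
    16184811160863, 79228162514264566291962527744, 17592186044416⟩ (by decide +kernel)

theorem QC_47 : Hd QQC 79228162514264471642483171578 15132798435407
    79228162514264542366589507339 16184811160863 79228162514264566291962527744 17592186044416 :=
  okQC (s2 (s1 (s0 lf lf) (s0 lf lf)) (s1 (s0 lf lf) (s0 lf lf)))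
    ⟨79228162514264471642483171578, 15132798435407, 79228162514264542366589507339,
    16184811160863, 79228162514264566291962527744, 17592186044416⟩ (by decide +kernel)

end H41FT
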