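import Pool.Agent.H41.FT.Claims

/-! Branch and bound data, generated. -/

set_option maxRecDepth 100000

namespace H41FT

open Tr

theorem QC_48 : Hd QQC 79228162514264456509684736171 30265596870814
    79228162514264574736211829065 16184811160863 79228162514264566291962527744 17592186044416 :=
  okQC (s0 (s2 (s1 lf lf) (s1 lf lf)) (s2 (s1 (s0 lf lf) (s0 lf (sk 0))) (s1 (s0 lf lf) (s0 lf
    lf))))
    ⟨79228162514264456509684736171, 30265596870814, 79228162514264574736211829065,
    16184811160863, 79228162514264566291962527744, 17592186044416⟩ (by decide +kernel)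

theorem QC_49 : Hd QQC 79228162514264441376886300764 15132798435407
    79228162514264542366589507339 16184811160863 79228162514264601476334616576 17592186044416 :=
  okQC (s1 (s2 lf lf) (s2 lf lf))
    ⟨79228162514264441376886300764, 15132798435407, 79228162514264542366589507339,
    16184811160863, 79228162514264601476334616576, 17592186044416⟩ (by decide +kernel)

theorem QC_50 : Hd QQC 79228162514264471642483171578 15132798435407
    79228162514264542366589507339 16184811160863 79228162514264601476334616576 17592186044416 :=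
  okQC (s2 (s1 (s0 lf lf) (s0 lf lf)) (s1 (s0 lf lf) (s0 lf lf)))
    ⟨79228162514264471642483171578, 15132798435407, 79228162514264542366589507339,
    16184811160863, 79228162514264601476334616576, 17592186044416⟩ (by decide +kernel)

theorem QC_51 : Hd QQC 79228162514264456509684736171 30265596870814
    79228162514264574736211829065 16184811160863 79228162514264601476334616576 17592186044416 :=
  okQC (s0 (s1 (s2 lf lf) (s2 lf lf)) (s2 (s1 (s0 lf lf) (s0 lf lf)) (s1 (s0 lf lf) lf)))
    ⟨79228162514264456509684736171, 30265596870814, 79228162514264574736211829065,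
    16184811160863, 79228162514264601476334616576, 17592186044416⟩ (by decide +kernel)

theorem QD_0 : Hd QQD 79228162514264552921901133988 66146619527005 79228162514264552921901133988
    66146619527005 79228162514264407962288128000 70368744177664 :=
  okQD (s2 (s0 (s1 (sk 0) (sk 0)) (sk 0)) (s0 (s1 (s2 (s0 (s1 (s0 (s1 lf (sk 0)) (sk 0)) (sk 0))
    (sk 0)) (s0 (s1 (s0 (s1 lf (sk 0)) (sk 0)) (sk 0)) (sk 0))) (sk 0)) (sk 0)))
    ⟨79228162514264552921901133988, 66146619527005, 79228162514264552921901133988,
    66146619527005, 79228162514264407962288128000, 70368744177664⟩ (by decide +kernel)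

theorem QD_1 : Hd QQD 79228162514264552921901133988 66146619527005 79228162514264552921901133988
    66146619527005 79228162514264513515404394496 35184372088832 :=
  okQD (s0 (s1 (s2 (s0 (s1 (s0 (s1 lf lf) (s1 lf lf)) (s2 (sk 0) (s0 lf (sk 0)))) (s1 (s2 (sk 0)
    (s1 (sk 1) (sk 0))) (sk 0))) (s0 (s1 (s1 (s0 lf lf) (s0 lf lf)) (s2 (s0 lf lf) (s0 lf lf)))
    (s1 (s2 (s1 (sk 1) lf) (s1 (sk 1) lf)) (s2 (sk 0) (s1 lf (sk 0)))))) (s2 (sk 0) (s0 (s1 (sk
    0) (sk 0)) (sk 0)))) (s1 (s2 (sk 0) (s0 (s1 (sk 0) (sk 0)) (sk 0))) (sk 0)))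
    ⟨79228162514264552921901133988, 66146619527005, 79228162514264552921901133988,
    66146619527005, 79228162514264513515404394496, 35184372088832⟩ (by decide +kernel)

theorem QD_2 : Hd QQD 79228162514264519848591370485 33073309763503 79228162514264519848591370485
    33073309763503 79228162514264583884148572160 35184372088832 :=
  okQD (s2 (s0 (s1 (s1 (s0 (s2 lf lf) lf) (s0 lf lf)) (s2 (s0 lf lf) (s0 lf lf))) (s1 (s2 (s1
    (sk 1) lf) (s1 (sk 1) lf)) (s2 (s0 lf lf) (s0 lf lf)))) (s0 (s1 (s0 (s1 (s2 lf lf) (s2 lf
    lf)) (s1 (s2 lf lf) lf)) (s0 (s2 lf lf) (s1 lf lf))) (s1 (s1 (sk 1) (s0 lf (sk 1))) (s0 (s1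
    lf lf) (s1 lf lf)))))
    ⟨79228162514264519848591370485, 33073309763503, 79228162514264519848591370485,
    33073309763503, 79228162514264583884148572160, 35184372088832⟩ (by decide +kernel)

end H41FT
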