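import Pool.Agent.H41.FT.Claims

/-! Branch and bound data, generated. -/

set_option maxRecDepth 100000

namespace H41FT

open Tr

theorem QD_3 : Hd QQD 79228162514264519848591370485 33073309763503 79228162514264585995210897491
    33073309763503 79228162514264583884148572160 35184372088832 :=
  okQD (s2 (s0 (s1 (s2 (s0 lf lf) (s0 lf lf)) (sk 0)) (s1 (s2 (sk 0) (s0 lf lf)) (sk 0))) (s0
    (s1 (s0 (s2 lf lf) (s2 lf lf)) (s2 (s0 lf lf) (s0 lf lf))) (s1 (s0 (s2 lf lf) (s2 lf lf))
    (s0 (s2 lf lf) (s2 (sk 0) lf)))))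
    ⟨79228162514264519848591370485, 33073309763503, 79228162514264585995210897491,
    33073309763503, 79228162514264583884148572160, 35184372088832⟩ (by decide +kernel)

theorem QD_4 : Hd QQD 79228162514264585995210897491 33073309763503 79228162514264552921901133988
    66146619527005 79228162514264583884148572160 35184372088832 :=
  okQD (s1 (s2 (s1 (sk 1) (s0 (s2 (sk 0) (s1 (sk 1) lf)) (sk 0))) (s1 (sk 1) (s0 (s1 (sk 1) (s2
    lf lf)) (sk 1)))) (s2 (sk 0) (s0 (s1 (s2 lf lf) (s0 (s2 (sk 0) lf) (s2 (sk 0) lf))) (s1 (s1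
    (sk 1) (s2 (sk 0) lf)) (s0 (s1 lf lf) lf)))))
    ⟨79228162514264585995210897491, 33073309763503, 79228162514264552921901133988,
    66146619527005, 79228162514264583884148572160, 35184372088832⟩ (by decide +kernel)

end H41FT
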